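import Pool.Agent.Y213.EC.Gal
import Pool.Agent.H901R3.MS.P_PLK
import Pool.Agent.W401.Cheb.Grp

/-! Reduction of the torsion points fixed by a Frobenius element. -/

set_option autoImplicit false

namespace Pool.Agent.Y213.EC

open Pool.Agent.H901R3.MS Pool.Agent.H901R3.MS.W_PLK WeierstrassCurve NumberField
open Pool.Agent.W401.Cheb

/-- the place of a number field defined by a homomorphism to a field of positive characteristic -/
theorem exists_place (K : Type) [Field K] [NumberField K] (k : Type) [Field k] (p : ℕ) [CharP k p]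
    (hp : p ≠ 0) (φ : 𝓞 K →+* k) : ∃ v : Place K k, ∀ x : 𝓞 K, (x : K) ∈ v.A ∧ v.r (x : K) = φ x := by
  have hprime : (RingHom.ker φ).IsPrime := RingHom.ker_isPrime φ
  generalize hP : RingHom.ker φ = P at hprime
  have hPne : P ≠ ⊥ := by
    intro h0
    have h1 : ((p : ℕ) : 𝓞 K) ∈ P := by
      rw [← hP, RingHom.mem_ker, map_natCast, CharP.cast_eq_zero]
    rw [h0, Ideal.mem_bot, Nat.cast_eq_zero] at h1
    exact hp h1
  have hmem : ∀ x : 𝓞 K, x ∈ P ↔ φ x = 0 := fun x => by rw [← hP, RingHom.mem_ker]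
  haveI : IsDiscreteValuationRing (Localization.AtPrime P) :=
    IsLocalization.AtPrime.isDiscreteValuationRing_of_dedekind_domain (𝓞 K) hPne _
  have hg : ∀ y : P.primeCompl, IsUnit (algebraMap (𝓞 K) K y) := by
    intro y
    rw [isUnit_iff_ne_zero, Ne, FaithfulSMul.algebraMap_eq_zero_iff]
    intro h0
    exact y.2 (h0 ▸ P.zero_mem)
  have hφ : ∀ y : P.primeCompl, IsUnit (φ y) := by
    intro y
    rw [isUnit_iff_ne_zero]
    intro h0
    exact y.2 ((hmem _).2 h0)
  letI : Algebra (Localization.AtPrime P) K :=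
    (IsLocalization.lift (M := P.primeCompl) hg : Localization.AtPrime P →+* K).toAlgebra
  haveI : IsScalarTower (𝓞 K) (Localization.AtPrime P) K :=
    IsScalarTower.of_algebraMap_eq fun x => (IsLocalization.lift_eq hg x).symm
  haveI : IsFractionRing (Localization.AtPrime P) K :=
    IsFractionRing.isFractionRing_of_isDomain_of_isLocalization P.primeCompl _ K
  obtain ⟨v, hv⟩ := place_of (K := K) (k := k) (R := Localization.AtPrime P)
    (IsLocalization.lift (M := P.primeCompl) hφ) (by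
      intro r hr
      obtain ⟨⟨a, s⟩, rfl⟩ := IsLocalization.mk'_surjective P.primeCompl r
      have ha : a ∈ P.primeCompl := by
        intro haP
        apply hr
        rw [IsLocalization.lift_mk'_spec, mul_zero]
        exact (hmem a).1 haP
      exact (IsLocalization.AtPrime.isUnit_mk'_iff (Localization.AtPrime P) P a s).2 ha)
  refine ⟨v, fun x => ?_⟩
  have h1 := hv (algebraMap (𝓞 K) _ x)
  rw [← IsScalarTower.algebraMap_apply, IsLocalization.lift_eq] at h1
  exact h1

/-- a homomorphism with values fixed by the Frobenius map factors through the prime field -/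
theorem exists_factor (p : ℕ) [Fact p.Prime] (R : Type) [CommRing R] (k : Type) [Field k]
    [CharP k p] (f : R →+* k) (hf : ∀ x, f x ^ p = f x) :
    ∃ φ : R →+* ZMod p, ∀ x, ZMod.castHom (dvd_refl p) k (φ x) = f x := by
  have h1 : ∀ x, ∃ c : ZMod p, ZMod.castHom (dvd_refl p) k c = f x := by
    intro x
    have h2 := (Subfield.mem_bot_iff_pow_eq_self k p).2 (hf x)
    rw [← ZMod.fieldRange_castHom_eq_bot p] at h2
    obtain ⟨c, hc⟩ := h2
    exact ⟨c, hc⟩
  choose g hg using h1
  have hinj : Function.Injective (ZMod.castHom (dvd_refl p) k) := RingHom.injective _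
  exact ⟨{ toFun := g
           map_one' := hinj (by rw [hg, map_one, map_one])
           map_mul' := fun x y => hinj (by rw [hg, map_mul, map_mul, hg, hg])
           map_zero' := hinj (by rw [hg, map_zero, map_zero])
           map_add' := fun x y => hinj (by rw [hg, map_add, map_add, hg, hg]) }, hg⟩

/-- the fixed torsion points inject in the torsion of the reduction -/
theorem red_count (K : Type) [Field K] [NumberField K] (M : Type) [Field M] [DecidableEq M]
    [NumberField M] (ι : K →+* M) (a b : 𝓞 K) (hd : Disc (ι a) (ι b)) (m : ℕ)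
    (H : Subgroup Gal(M/ℚ)) (hH : ∀ g ∈ H, ∀ x : K, g (ι x) = ι x)
    (hfin : Finite (Tor (Pt (ι a) (ι b)) m)) :
    ∃ p₁ : ℕ, ∀ (p : ℕ) [Fact p.Prime], p₁ ≤ p → ∀ g : H,
      ∀ ψ : 𝓞 M →+* AlgebraicClosure (ZMod p), HasFrob p ψ g.1 →
      ∃ φ : 𝓞 K →+* ZMod p, Finite (Tor (Pt (φ a) (φ b)) m) ∧ Disc (φ a) (φ b) ∧
        fx hd H (fun g hg => ⟨hH g hg a, hH g hg b⟩) m g ≤ Nat.card (Tor (Pt (φ a) (φ b)) m) := by
  classical
  -- the coordinates
  have hcoord : ∃ Z : Finset M, ∀ P : Pt (ι a) (ι b), m • P = 0 → ∀ x y h,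
      P = Affine.Point.some x y h → x ∈ Z ∧ y ∈ Z := by
    let cx : Tor (Pt (ι a) (ι b)) m → Finset M := fun P => match P.1 with
      | .zero => ∅
      | .some x y _ => {x, y}
    haveI : Fintype (Tor (Pt (ι a) (ι b)) m) := Fintype.ofFinite _
    refine ⟨Finset.univ.biUnion cx, fun P hP x y h e => ?_⟩
    have h1 : cx ⟨P, hP⟩ = {x, y} := by
      subst e
      rfl
    constructor
    · rw [Finset.mem_biUnion]
      exact ⟨⟨P, hP⟩, Finset.mem_univ _, by rw [h1]; simp⟩
    · rw [Finset.mem_biUnion]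
      exact ⟨⟨P, hP⟩, Finset.mem_univ _, by rw [h1]; simp⟩
  obtain ⟨Z, hZ⟩ := hcoord
  -- denominators
  haveI : Algebra.IsAlgebraic ℤ M :=
    (IsFractionRing.comap_isAlgebraic_iff (A := ℤ) (K := ℚ) (C := M)).2 inferInstance
  obtain ⟨D, hD0, hD⟩ := Algebra.IsAlgebraic.exists_integral_multiples ℤ Z
  have hD' : ∀ z ∈ Z, ∃ α : 𝓞 M, (α : M) = (D : M) * z := by
    intro z hz
    exact ⟨⟨(D : M) * z, by
      rw [← zsmul_eq_mul]
      exact hD z hz⟩, rfl⟩
  -- the discriminant
  have hdK : (2 * (4 * a ^ 3 + 27 * b ^ 2) : 𝓞 K) ≠ 0 := by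
    intro h0
    apply hd
    have h2 := congrArg (ι.comp (algebraMap (𝓞 K) K)) h0
    simp only [map_mul, map_add, map_pow, map_ofNat, map_zero] at h2
    exact h2
  -- a rational integer divisible by the discriminant
  obtain ⟨E, hE0, w, hEw⟩ : ∃ E : ℕ, E ≠ 0 ∧ ∃ w : 𝓞 K, (E : 𝓞 K) =
      2 * (4 * a ^ 3 + 27 * b ^ 2) * w := by
    refine ⟨Ideal.absNorm (Ideal.span {(2 * (4 * a ^ 3 + 27 * b ^ 2) : 𝓞 K)}), ?_, ?_⟩
    · rw [Ne, Ideal.absNorm_eq_zero_iff, Ideal.span_singleton_eq_bot]
      exact hdK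
    · exact Ideal.mem_span_singleton.1 (Ideal.absNorm_mem _)
  refine ⟨D.natAbs + E + 1, ?_⟩
  intro p _ hp g ψ hψ
  have hpp : p.Prime := Fact.out
  let k := AlgebraicClosure (ZMod p)
  haveI : CharP k p := charP_of_injective_algebraMap (algebraMap (ZMod p) k).injective p
  obtain ⟨v, hv⟩ := exists_place M k p hpp.ne_zero ψ
  let θ : 𝓞 K →+* 𝓞 M := RingOfIntegers.mapRingHom ι
  have hθ : ∀ x : 𝓞 K, ((θ x : 𝓞 M) : M) = ι (x : K) := fun x => rfl
  -- the homomorphism on `K`
  obtain ⟨φ, hφ⟩ := exists_factor p (𝓞 K) k (ψ.comp θ) (by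
    intro x
    have h1 := hψ (θ x)
    have h2 : g.1 • (θ x) = θ x := by
      apply RingOfIntegers.ext
      exact hH g.1 g.2 x
    rw [h2] at h1
    exact h1.symm)
  let c : ZMod p →+* k := ZMod.castHom (dvd_refl p) k
  have hDk : (D : k) ≠ 0 := by
    intro h
    rw [CharP.intCast_eq_zero_iff k p] at h
    have h1 := Nat.le_of_dvd (Int.natAbs_pos.2 hD0) (Int.natCast_dvd.1 h)
    omega
  have hdφ : Disc (φ a) (φ b) := by
    intro h
    have h1 : ((E : ℕ) : ZMod p) = 0 := by
      have h2 := congrArg φ hEw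
      simp only [map_mul, map_add, map_pow, map_natCast, map_ofNat] at h2
      rw [h2, h, zero_mul]
    rw [ZMod.natCast_eq_zero_iff] at h1
    have := Nat.le_of_dvd (Nat.pos_of_ne_zero hE0) h1
    omega
  have hca : c (φ a) = ψ (θ a) := hφ a
  have hcb : c (φ b) = ψ (θ b) := hφ b
  have hdψ : Disc (ψ (θ a)) (ψ (θ b)) := by
    rw [← hca, ← hcb]
    unfold Disc at hdφ ⊢
    have h := (map_ne_zero c).2 hdφ
    rw [map_mul, map_add, map_mul, map_mul, map_pow, map_pow, map_ofNat, map_ofNat,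
      map_ofNat] at h
    exact h
  have hva : (ι a) ∈ v.A := (hv (θ a)).1
  have hvb : (ι b) ∈ v.A := (hv (θ b)).1
  obtain ⟨red, hred⟩ := exists_red v (a := ι a) (b := ι b) (a' := ψ (θ a)) (b' := ψ (θ b)) hva hvb
    (hv (θ a)).2 (hv (θ b)).2 hdψ
  obtain ⟨j, hj⟩ := exists_map c (a := φ a) (b := φ b) (a' := ψ (θ a)) (b' := ψ (θ b)) hca hcb hdψ
  have hjinj := map_inj c j hj
  -- coordinates at the place
  have hvD : ((D : ℤ) : M) ∈ v.A := v.int_mem D
  have hrD : v.r ((D : ℤ) : M) = (D : k) := v.r_int D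
  have hZv : ∀ z ∈ Z, z ∈ v.A := by
    intro z hz
    obtain ⟨α, hα⟩ := hD' z hz
    have h1 : z = (α : M) / (D : M) := by
      rw [hα, mul_div_cancel_left₀]
      exact_mod_cast hD0
    rw [h1]
    exact v.div_mem (hv α).1 (by rw [hrD]; exact hDk)
  have hZr : ∀ z ∈ Z, g.1 z = z → v.r z ^ p = v.r z := by
    intro z hz hgz
    obtain ⟨α, hα⟩ := hD' z hz
    have h1 : z = (α : M) / (D : M) := by
      rw [hα, mul_div_cancel_left₀]
      exact_mod_cast hD0
    have h2 : g.1 • α = α := by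
      apply RingOfIntegers.ext
      have h3 : ((g.1 • α : 𝓞 M) : M) = g.1 (α : M) := rfl
      rw [h3, hα, map_mul, map_intCast, hgz]
    have h3 := hψ α
    rw [h2] at h3
    have h4 : v.r z = ψ α / (D : k) := by
      conv_lhs => rw [h1]
      rw [v.r_div (hv α).1 (by rw [hrD]; exact hDk), (hv α).2, hrD]
    rw [h4, div_pow, ← h3]
    congr 1
    have h5 := frobenius_def p (D : k)
    rw [← h5, map_intCast]
  -- injectivity of the reduction on the torsion
  have hredinj : ∀ P : Pt (ι a) (ι b), m • P = 0 → red P = 0 → P = 0 := by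
    rintro (_ | ⟨x, y, h⟩) hP h0
    · rfl
    · exfalso
      have hx := (hZ _ hP x y h rfl).1
      obtain ⟨_, g', hg'⟩ := hred.2.2 x y h (hZv x hx)
      rw [hg'] at h0
      exact absurd h0 (by simp)
  -- the points over the prime field
  have hlift : ∀ P : {P : Tor (Pt (ι a) (ι b)) m //
      act hd H (fun g hg => ⟨hH g hg a, hH g hg b⟩) g P.1 = P.1},
      ∃ Q : Tor (Pt (φ a) (φ b)) m, j Q.1 = red P.1.1 := by
    rintro ⟨⟨P, hP⟩, hgP⟩
    have h1 : ∃ Q : Pt (φ a) (φ b), j Q = red P := by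
      rcases P with _ | ⟨x, y, h⟩
      · refine ⟨0, ?_⟩
        rw [map_zero]
        exact hred.1.symm
      · obtain ⟨h', e⟩ := act_some hd H (fun g hg => ⟨hH g hg a, hH g hg b⟩) g x y h
        have h2 : act hd H (fun g hg => ⟨hH g hg a, hH g hg b⟩) g (Affine.Point.some x y h) =
          Affine.Point.some x y h := hgP
        rw [e, Affine.Point.some.injEq] at h2
        obtain ⟨hx, hy⟩ := hZ _ hP x y h rfl
        obtain ⟨_, g', hg'⟩ := hred.2.2 x y h (hZv x hx)
        have h3 := (Subfield.mem_bot_iff_pow_eq_self k p).2 (hZr x hx h2.1)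
        have h4 := (Subfield.mem_bot_iff_pow_eq_self k p).2 (hZr y hy h2.2)
        rw [← ZMod.fieldRange_castHom_eq_bot p] at h3 h4
        obtain ⟨x', hx'⟩ := h3
        obtain ⟨y', hy'⟩ := h4
        have hns : (CV (φ a) (φ b)).toAffine.Nonsingular x' y' := by
          rw [nonsingular_iff hdφ]
          have h5 := eqn_of g'
          unfold Eqn at h5 ⊢
          apply (RingHom.injective c)
          rw [map_add, map_add, map_mul, map_pow, map_pow, hca, hcb]
          show (ZMod.castHom (dvd_refl p) k y') ^ 2 = (ZMod.castHom (dvd_refl p) k x') ^ 3 +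
            ψ (θ a) * (ZMod.castHom (dvd_refl p) k x') + ψ (θ b)
          rw [hx', hy']
          exact h5
        obtain ⟨h6, e6⟩ := hj x' y' hns
        refine ⟨_, e6.trans (hg'.trans ?_).symm⟩
        rw [Affine.Point.some.injEq]
        exact ⟨hx'.symm, hy'.symm⟩
    obtain ⟨Q, hQ⟩ := h1
    refine ⟨⟨Q, ?_⟩, hQ⟩
    apply hjinj
    rw [map_nsmul, hQ, ← map_nsmul, hP, map_zero, map_zero]
  choose Q hQ using hlift
  have hQinj : Function.Injective Q := by
    intro P P' hPP
    have h1 : red P.1.1 = red P'.1.1 := by rw [← hQ P, ← hQ P', hPP]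
    have h2 : red (P.1.1 - P'.1.1) = 0 := by rw [map_sub, h1, sub_self]
    have h3 : m • (P.1.1 - P'.1.1) = 0 := by rw [smul_sub, P.1.2, P'.1.2, sub_self]
    have h4 := hredinj _ h3 h2
    exact Subtype.ext (Subtype.ext (sub_eq_zero.1 h4))
  have hfin' : Finite (Pt (φ a) (φ b)) := by
    let f : Pt (φ a) (φ b) → Option (ZMod p × ZMod p) := fun P => match P with
      | .zero => none
      | .some x y _ => some (x, y)
    refine Finite.of_injective f ?_
    intro P P' h
    rcases P with _ | ⟨x, y, h1⟩ <;> rcases P' with _ | ⟨x', y', h1'⟩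
    · rfl
    · simp [f] at h
    · simp [f] at h
    · simp only [f, Option.some.injEq, Prod.mk.injEq] at h
      obtain ⟨rfl, rfl⟩ := h
      rfl
  refine ⟨φ, inferInstance, hdφ, ?_⟩
  unfold fx
  exact Nat.card_le_card_of_injective Q hQinj

end Pool.Agent.Y213.EC
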