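import Pool.Agent.Y213.EC.Main

/-! The theorem on closed subvarieties of `E ^ r × ℙ ^ n`, with heights. -/

set_option autoImplicit false

namespace Pool.Agent.Y213.EC

open MvPolynomial NumberField Pool.Agent.H901R3.MS WeierstrassCurve

open Pool.Agent.W659.SA (vec)

open scoped LinearAlgebra.Projectivization

/-- the fibre in projective space over the point given by `V` of the closed subset defined by the
`G e` -/
def Fib {O k : Type} [CommRing O] [Field k] (φ : O →+* k) {r n q : ℕ} (G : Fin q → Pol O r n)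
    (V : Fin r → Fin 3 → k) : Set (ℙ k (Fin n → k)) :=
  {y | ∀ e, vl φ (G e) V y.rep = 0}

/-- the points of projective space over which there is a `K`-rational point -/
def Img {K : Type} [Field K] (a b : 𝓞 K) {r n q : ℕ}
    (G : Fin q → Pol (𝓞 K) r n) : Set (ℙ K (Fin n → K)) :=
  {y | ∃ V : Fin r → Fin 3 → K, (∀ i, OnK (a : K) (b : K) (V i)) ∧
    y ∈ Fib (algebraMap (𝓞 K) K) G V}

theorem mem_fib {O k : Type} [CommRing O] [Field k] (φ : O →+* k) {r n q : ℕ}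
    (G : Fin q → Pol O r n) (kk : Fin q → ℕ) (hX : ∀ e, XHomog (G e) (kk e))
    (V : Fin r → Fin 3 → k) (x : Fin n → k) (hx : x ≠ 0) (h : ∀ e, vl φ (G e) V x = 0) :
    Projectivization.mk k x hx ∈ Fib φ G V := by
  intro e
  obtain ⟨u, hu⟩ := Projectivization.exists_smul_eq_mk_rep k x hx
  rw [← hu]
  have h1 : (u • x) = fun i => (u : k) * x i := by
    funext i
    rfl
  rw [h1, vl_xscale φ (G e) (kk e) (hX e), h e, mul_zero]

/-- integral coordinates of the points of bounded height -/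
theorem reduce (K : Type) [Field K] [NumberField K] (n : ℕ) :
    ∃ (N : ℕ) (ω : Module.Basis (Fin N) ℤ (𝓞 K)) (C : ℝ), 0 ≤ C ∧ ∀ (B : ℝ) (y : ℙ K (Fin n → K)),
      y.mulHeight ≤ B → ∃ (c : Fin n × Fin N → ℤ) (u : K), u ≠ 0 ∧
        (∀ i, ((vec ω c i : 𝓞 K) : K) = u * y.rep i) ∧ ∀ i, |(c i : ℝ)| ≤ C * B ^ (n + 1) := by
  obtain ⟨N, ω, C, hC⟩ := coord_bound K
  refine ⟨N, ω, max C 0, le_max_right _ _, fun B y hy => ?_⟩
  have hy' : Height.mulHeight y.rep ≤ B := by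
    rw [← Projectivization.mulHeight_mk y.rep_nonzero, Projectivization.mk_rep]
    exact hy
  have hB1 : 1 ≤ B := (Height.one_le_mulHeight _).trans hy'
  obtain ⟨x, u, hu, hx, hτ⟩ := int_rep y.rep y.rep_nonzero B hy'
  refine ⟨fun ij => ω.repr (x ij.1) ij.2, u, hu, ?_, ?_⟩
  · intro i
    have h1 : vec ω (fun ij : Fin n × Fin N => ω.repr (x ij.1) ij.2) i = x i := by
      unfold vec
      exact ω.sum_repr (x i)
    rw [h1, hx i]
  · intro i
    refine (hC (x i.1) (B ^ (n + 1)) (by positivity) (fun τ => hτ i.1 τ) i.2).trans ?_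
    exact mul_le_mul_of_nonneg_right (le_max_left _ _) (by positivity)

theorem rpow_bound (m : ℕ) (C B ε : ℝ) (hC : 0 ≤ C) (hB : 1 ≤ B) (hε : 0 < ε) (H₀ H : ℕ)
    (hH : (H : ℝ) ≤ (C + 1 + H₀) * B ^ (m + 1)) :
    (H : ℝ) ^ (ε / (m + 1)) ≤ (C + 1 + H₀) ^ (ε / (m + 1)) * B ^ ε := by
  have h1 : (0 : ℝ) ≤ C + 1 + H₀ := by positivity
  have h2 : 0 < ε / ((m : ℝ) + 1) := by positivity
  refine (Real.rpow_le_rpow (Nat.cast_nonneg _) hH h2.le).trans (le_of_eq ?_)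
  rw [Real.mul_rpow h1 (by positivity), ← Real.rpow_natCast, ← Real.rpow_mul (by linarith)]
  congr 2
  push_cast
  field_simp

theorem eval_smul {K : Type} [Field K] {n k : ℕ} (f : MvPolynomial (Fin n) K)
    (hf : f.IsHomogeneous k) (u : K) (x : Fin n → K) : eval (u • x) f = u ^ k * eval x f := by
  rw [eval_eq', eval_eq', Finset.mul_sum]
  refine Finset.sum_congr rfl fun m hm => ?_
  have h1 := hf (mem_support_iff.1 hm)
  rw [Finsupp.weight_apply, Finsupp.sum_fintype _ _ (fun _ => by simp)] at h1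
  have h2 : ∑ i, m i = k := by simpa using h1
  have h3 : ∏ i, (u • x) i ^ m i = u ^ k * ∏ i, x i ^ m i := by
    rw [← h2, ← Finset.prod_pow_eq_pow_sum, ← Finset.prod_mul_distrib]
    refine Finset.prod_congr rfl fun i _ => ?_
    rw [Pi.smul_apply, smul_eq_mul, mul_pow]
  rw [h3]
  ring

theorem partA (K : Type) [Field K] [NumberField K] (r n q : ℕ) (a b : 𝓞 K)
    (hd : 4 * a ^ 3 + 27 * b ^ 2 ≠ 0) (G : Fin q → Pol (𝓞 K) r (n + 1))
    (d : Fin q → Fin r → ℕ) (k : Fin q → ℕ) (hG : ∀ e, MHomog (G e) (d e))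
    (hX : ∀ e, XHomog (G e) (k e)) (k' : ℕ) (hk : ∀ e, k e ≤ k') (σ : K →+* ℂ)
    (hns : ∀ V : Fin r → Fin 3 → ℂ, (∀ i, OnK (σ a) (σ b) (V i)) → Fib (toC σ) G V ≠ Set.univ)
    (ε : ℝ) (hε : 0 < ε) :
    ∃ C : ℝ, ∀ B : ℝ, 1 ≤ B → ∃ FF : Finset (MvPolynomial (Fin (n + 1)) K),
      (FF.card : ℝ) ≤ C * B ^ ε ∧ (∀ f ∈ FF, f ≠ 0 ∧ f.IsHomogeneous k') ∧
      ∀ y ∈ Img a b G, y.mulHeight ≤ B → ∃ f ∈ FF, eval y.rep f = 0 := by
  have hdK : Disc (a : K) (b : K) := by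
    intro h
    apply hd
    have h1 : (2 * (4 * a ^ 3 + 27 * b ^ 2) : 𝓞 K) = 0 := by
      apply RingOfIntegers.ext
      have h2 : ((2 * (4 * a ^ 3 + 27 * b ^ 2) : 𝓞 K) : K) =
          2 * (4 * (a : K) ^ 3 + 27 * (b : K) ^ 2) := by
        simp only [map_mul, map_add, map_pow, map_ofNat]
      rw [h2]
      exact h
    exact (mul_eq_zero.1 h1).resolve_left two_ne_zero
  obtain ⟨N, ω, C, hC0, hC⟩ := reduce K (n + 1)
  set ε' : ℝ := ε / (((n + 1 : ℕ) : ℝ) + 1) with hε'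
  have hε'0 : 0 < ε' := by positivity
  obtain ⟨H₀, hH₀, hmain⟩ := hs K N ω r n q a b hdK G d k k' hk hG hX σ (by
    intro V hV
    have h1 := hns V hV
    rw [Set.ne_univ_iff_exists_notMem] at h1
    obtain ⟨y, hy⟩ := h1
    by_contra hcon
    push Not at hcon
    apply hy
    intro e
    rw [vl_eq, hcon e, map_zero]) ε' hε'0
  refine ⟨(C + 1 + H₀) ^ ε', fun B hB => ?_⟩
  set H : ℕ := ⌈C * B ^ (n + 1 + 1)⌉₊ + H₀ with hH
  have hB' : (1 : ℝ) ≤ B ^ (n + 1 + 1) := one_le_pow₀ hB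
  have hHle : (H : ℝ) ≤ (C + 1 + H₀) * B ^ (n + 1 + 1) := by
    have h1 := (Nat.ceil_lt_add_one (by positivity : 0 ≤ C * B ^ (n + 1 + 1))).le
    have h2 : (0 : ℝ) ≤ H₀ := Nat.cast_nonneg _
    rw [hH]
    push_cast
    nlinarith
  have hHge : C * B ^ (n + 1 + 1) ≤ H := by
    rw [hH]
    push_cast
    have h1 := Nat.le_ceil (C * B ^ (n + 1 + 1))
    have h2 : (0 : ℝ) ≤ H₀ := Nat.cast_nonneg _
    linarith
  obtain ⟨FF, hFF1, hFF2, hFF3⟩ := hmain H (by omega)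
  refine ⟨FF, hFF1.trans (rpow_bound (n + 1) C B ε hC0 hB hε H₀ H hHle), hFF2, ?_⟩
  rintro y ⟨V, hV, hy⟩ hyB
  obtain ⟨c, u, hu, hcu, hcB⟩ := hC B y hyB
  obtain ⟨f, hf, hf0⟩ := hFF3 c (by
    intro i
    have h1 : |(c i : ℝ)| ≤ H := (hcB i).trans hHge
    exact_mod_cast h1) ⟨V, hV, by
      intro e
      have h1 := hy e
      simp only [hcu]
      rw [vl_xscale _ (G e) (k e) (hX e), h1, mul_zero]⟩
  refine ⟨f, hf, ?_⟩
  have h1 : (fun i => ((vec ω c i : 𝓞 K) : K)) = u • y.rep := by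
    funext i
    rw [hcu i]
    rfl
  rw [h1, eval_smul f (hFF2 f hf).2] at hf0
  rcases mul_eq_zero.1 hf0 with h2 | h2
  · exact absurd h2 (pow_ne_zero _ hu)
  · exact h2

theorem partB (K : Type) [Field K] [NumberField K] (r n q : ℕ) (a b : 𝓞 K)
    (hd : 4 * a ^ 3 + 27 * b ^ 2 ≠ 0) (G : Fin q → Pol (𝓞 K) r n)
    (d : Fin q → Fin r → ℕ) (k : Fin q → ℕ) (hG : ∀ e, MHomog (G e) (d e))
    (hX : ∀ e, XHomog (G e) (k e)) (D : ℕ) (σ : K →+* ℂ)
    (hns : ∀ V : Fin r → Fin 3 → ℂ, (∀ i, OnK (σ a) (σ b) (V i)) →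
      (Fib (toC σ) G V).encard ≤ D)
    (ε : ℝ) (hε : 0 < ε) :
    ∃ C : ℝ, ∀ B : ℝ, 1 ≤ B → {y ∈ Img a b G | y.mulHeight ≤ B}.Finite ∧
      ({y ∈ Img a b G | y.mulHeight ≤ B}.ncard : ℝ) ≤ C * B ^ ε := by
  classical
  have hdK : Disc (a : K) (b : K) := by
    intro h
    apply hd
    have h1 : (2 * (4 * a ^ 3 + 27 * b ^ 2) : 𝓞 K) = 0 := by
      apply RingOfIntegers.ext
      have h2 : ((2 * (4 * a ^ 3 + 27 * b ^ 2) : 𝓞 K) : K) =
          2 * (4 * (a : K) ^ 3 + 27 * (b : K) ^ 2) := by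
        simp only [map_mul, map_add, map_pow, map_ofNat]
      rw [h2]
      exact h
    exact (mul_eq_zero.1 h1).resolve_left two_ne_zero
  obtain ⟨N, ω, C, hC0, hC⟩ := reduce K n
  set ε' : ℝ := ε / ((n : ℝ) + 1) with hε'
  have hε'0 : 0 < ε' := by positivity
  obtain ⟨H₀, hH₀, hmain⟩ := hfin K N ω r n q a b hdK G d hG σ D (by
    intro V hV x hx0 hx
    by_contra hcon
    push Not at hcon
    have hinj : Function.Injective fun l => Projectivization.mk ℂ (x l) (hx0 l) := by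
      intro l l' hll
      by_contra hne
      obtain ⟨u, hu⟩ := (Projectivization.mk_eq_mk_iff' ℂ _ _ _ _).1 hll
      exact hcon l l' hne u hu.symm
    have h1 : (Set.range fun l => Projectivization.mk ℂ (x l) (hx0 l)) ⊆ Fib (toC σ) G V := by
      rintro _ ⟨l, rfl⟩
      exact mem_fib _ G k hX V (x l) (hx0 l) (hx l)
    have h2 := (Set.encard_le_encard h1).trans (hns V hV)
    rw [← Set.image_univ, hinj.encard_image, Set.encard_univ, ENat.card_eq_coe_fintype_card,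
      Fintype.card_fin] at h2
    have h3 : D + 1 ≤ D := by exact_mod_cast h2
    omega) ε' hε'0
  refine ⟨D * (C + 1 + H₀) ^ ε', fun B hB => ?_⟩
  set H : ℕ := ⌈C * B ^ (n + 1)⌉₊ + H₀ with hH
  have hB' : (1 : ℝ) ≤ B ^ (n + 1) := one_le_pow₀ hB
  have hHle : (H : ℝ) ≤ (C + 1 + H₀) * B ^ (n + 1) := by
    have h1 := (Nat.ceil_lt_add_one (by positivity : 0 ≤ C * B ^ (n + 1))).le
    have h2 : (0 : ℝ) ≤ H₀ := Nat.cast_nonneg _
    rw [hH]
    push_cast
    nlinarith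
  have hHge : C * B ^ (n + 1) ≤ H := by
    rw [hH]
    push_cast
    have h1 := Nat.le_ceil (C * B ^ (n + 1))
    have h2 : (0 : ℝ) ≤ H₀ := Nat.cast_nonneg _
    linarith
  obtain ⟨Z, hZ1, hZ2⟩ := hmain H (by omega)
  have hsub : {y ∈ Img a b G | y.mulHeight ≤ B} ⊆ (Z : Set (ℙ K (Fin n → K))) := by
    rintro y ⟨⟨V, hV, hy⟩, hyB⟩
    obtain ⟨c, u, hu, hcu, hcB⟩ := hC B y hyB
    have h1 : (fun i => ((vec ω c i : 𝓞 K) : K)) = u • y.rep := by
      funext i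
      rw [hcu i]
      rfl
    have h2 : (fun i => ((vec ω c i : 𝓞 K) : K)) ≠ 0 := by
      rw [h1]
      exact smul_ne_zero hu y.rep_nonzero
    have h3 := hZ2 c h2 (by
      intro i
      have h1 : |(c i : ℝ)| ≤ H := (hcB i).trans hHge
      exact_mod_cast h1) ⟨V, hV, by
        intro e
        have h1 := hy e
        simp only [hcu]
        rw [vl_xscale _ (G e) (k e) (hX e), h1, mul_zero]⟩
    have h4 : Projectivization.mk K _ h2 = y := by
      conv_rhs => rw [← y.mk_rep]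
      rw [Projectivization.mk_eq_mk_iff']
      exact ⟨u, h1.symm⟩
    rw [h4] at h3
    exact h3
  refine ⟨Z.finite_toSet.subset hsub, ?_⟩
  have h1 : ({y ∈ Img a b G | y.mulHeight ≤ B}.ncard : ℝ) ≤ Z.card := by
    have := Set.ncard_le_ncard hsub Z.finite_toSet
    rw [Set.ncard_coe_finset] at this
    exact_mod_cast this
  refine (h1.trans hZ1).trans ?_
  rw [mul_assoc]
  exact mul_le_mul_of_nonneg_left (rpow_bound n C B ε hC0 hB hε H₀ H hHle) (Nat.cast_nonneg _)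

end Pool.Agent.Y213.EC
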