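import Pool.Agent.Y213.EC.Gal
import Pool.Agent.TH954.X2.WDiv

/-! Points of order `6 ^ s` over algebraically closed fields and over number fields. -/

set_option autoImplicit false

namespace Pool.Agent.Y213.EC

open Pool.Agent.H901R3.MS WeierstrassCurve

section
variable {F : Type} [Field F] [DecidableEq F] [CharZero F] [IsAlgClosed F] {a b : F}

theorem disc_ne (hd : Disc a b) : 4 * a ^ 3 + 27 * b ^ 2 ≠ 0 := right_ne_zero_of_mul hd

open Polynomial in
theorem exists_two (hd : Disc a b) : ∃ P : Pt a b, addOrderOf P = 2 := by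
  have hdeg : (X ^ 3 + C a * X + C b : F[X]).degree = 3 := by compute_degree!
  obtain ⟨x, hx⟩ := IsAlgClosed.exists_root (X ^ 3 + C a * X + C b : F[X]) (by
    rw [hdeg]; norm_num)
  rw [IsRoot.def] at hx
  simp only [eval_add, eval_pow, eval_X, eval_mul, eval_C] at hx
  have h : (CV a b).toAffine.Nonsingular x 0 := by
    rw [nonsingular_iff hd]
    unfold Eqn
    linear_combination -hx
  refine ⟨Affine.Point.some x 0 h, ?_⟩
  have : Fact (Nat.Prime 2) := ⟨Nat.prime_two⟩
  apply addOrderOf_eq_prime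
  · rw [two_nsmul]
    exact add_opp h h rfl (by simp)
  · simp

open Polynomial in
theorem exists_three (hd : Disc a b) : ∃ P : Pt a b, addOrderOf P = 3 := by
  have hdeg : (3 * X ^ 4 + C (6 * a) * X ^ 2 + C (12 * b) * X - C (a ^ 2) : F[X]).degree = 4 := by
    compute_degree!
  obtain ⟨x, hx⟩ := IsAlgClosed.exists_root
    (3 * X ^ 4 + C (6 * a) * X ^ 2 + C (12 * b) * X - C (a ^ 2) : F[X]) (by
    rw [hdeg]; norm_num)
  rw [IsRoot.def] at hx
  simp only [eval_add, eval_sub, eval_pow, eval_X, eval_mul, eval_C, eval_ofNat] at hx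
  obtain ⟨y, hy⟩ := IsAlgClosed.exists_pow_nat_eq (x ^ 3 + a * x + b) (n := 2) (by norm_num)
  have h : (CV a b).toAffine.Nonsingular x y := by
    rw [nonsingular_iff hd]
    exact hy
  have h1 : (3 * x ^ 2 + a) ^ 2 = 12 * x * y ^ 2 := by rw [hy]; linear_combination -hx
  have h20 : (2 : F) ≠ 0 := two_ne_zero
  have hy0 : y ≠ 0 := by
    intro h0
    rw [h0] at h1 hy
    have h2 : 3 * x ^ 2 + a = 0 := by
      have : (3 * x ^ 2 + a) ^ 2 = 0 := by rw [h1]; ring
      exact pow_eq_zero_iff two_ne_zero |>.1 this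
    have h3 : a = -3 * x ^ 2 := by linear_combination h2
    have h4 : b = 2 * x ^ 3 := by
      rw [h3] at hy
      linear_combination -hy
    apply disc_ne hd
    rw [h3, h4]
    ring
  have hyy : y ≠ -y := by
    intro h4
    have h5 : 2 * y = 0 := by linear_combination h4
    exact (mul_ne_zero h20 hy0) h5
  have hne : (CV a b).toAffine.Nonsingular x (-y) := by
    have := (Affine.nonsingular_neg x y).2 h
    simpa [Affine.negY, CV] using this
  obtain ⟨h', e⟩ := add_dbl h h rfl hyy ((3 * x ^ 2 + a) / (2 * y)) x (-y) rfl (by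
    field_simp
    linear_combination -h1) (by ring)
  refine ⟨Affine.Point.some x y h, ?_⟩
  have : Fact (Nat.Prime 3) := ⟨Nat.prime_three⟩
  apply addOrderOf_eq_prime
  · have h6 : (3 : ℕ) • (Affine.Point.some x y h : Pt a b) =
        (Affine.Point.some x y h + Affine.Point.some x y h) + Affine.Point.some x y h := by
      abel
    rw [h6, e]
    exact add_opp h' h rfl (by ring)
  · simp

theorem exists_pow (hd : Disc a b) (l : ℕ) (hl : l.Prime) (P : Pt a b) (hP : addOrderOf P = l)
    (s : ℕ) : ∃ Q : Pt a b, addOrderOf Q = l ^ s := by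
  cases s with
  | zero => exact ⟨0, by simp⟩
  | succ s =>
    have : Fact l.Prime := ⟨hl⟩
    obtain ⟨Q, hQ⟩ : ∃ Q : Pt a b, l ^ s • Q = P :=
      Pool.Agent.TH954.X.We.div F a b (disc_ne hd) P (l ^ s) (Nat.pow_pos hl.pos)
    refine ⟨Q, addOrderOf_eq_prime_pow ?_ ?_⟩
    · intro h
      have h1 : P = 0 := by rw [← hQ]; exact h
      rw [h1, addOrderOf_zero] at hP
      exact hl.one_lt.ne hP
    · have h1 : l ^ (s + 1) • Q = l • (l ^ s • Q) := by
        rw [smul_smul]
        congr 1
        ring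
      rw [h1]
      rw [hQ, ← hP]
      exact addOrderOf_nsmul_eq_zero P

theorem exists_six (hd : Disc a b) (s : ℕ) : ∃ Q : Pt a b, addOrderOf Q = 6 ^ s := by
  obtain ⟨P2, h2⟩ := exists_two hd
  obtain ⟨P3, h3⟩ := exists_three hd
  obtain ⟨Q2, hQ2⟩ := exists_pow hd 2 Nat.prime_two P2 h2 s
  obtain ⟨Q3, hQ3⟩ := exists_pow hd 3 Nat.prime_three P3 h3 s
  refine ⟨Q2 + Q3, ?_⟩
  rw [AddCommute.addOrderOf_add_eq_mul_addOrderOf_of_coprime (AddCommute.all _ _), hQ2, hQ3,
    ← mul_pow]
  rotate_left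
  · rw [hQ2, hQ3]
    exact Nat.Coprime.pow s s (by norm_num)
  norm_num

end

theorem disc_map {K k : Type} [Field K] [Field k] (f : K →+* k) {a b : K} (hd : Disc a b) :
    Disc (f a) (f b) := by
  unfold Disc at hd ⊢
  have h := (map_ne_zero f).2 hd
  rw [map_mul, map_add, map_mul, map_mul, map_pow, map_pow, map_ofNat, map_ofNat, map_ofNat] at h
  exact h

theorem exists_M_aux (K : Type) [Field K] [NumberField K] (Ω : Type) [Field Ω] [Algebra K Ω]
    [CharZero Ω] [IsAlgClosed Ω] [Algebra.IsAlgebraic K Ω] (a b : K) (hd : Disc a b) (s : ℕ) :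
    ∃ (M : Type) (_ : Field M) (_ : DecidableEq M) (_ : NumberField M) (_ : IsGalois ℚ M)
      (ι : K →+* M) (P : Pt (ι a) (ι b)), addOrderOf P = 6 ^ s := by
  classical
  haveI : Algebra.IsAlgebraic ℚ Ω := Algebra.IsAlgebraic.trans ℚ K Ω
  haveI : IsAlgClosure ℚ Ω := ⟨inferInstance, inferInstance⟩
  haveI : Normal ℚ Ω := IsAlgClosure.normal ℚ Ω
  have hdΩ : Disc (algebraMap K Ω a) (algebraMap K Ω b) := disc_map _ hd
  obtain ⟨P, hP⟩ := exists_six hdΩ s
  -- a finite set of algebraic numbers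
  have hK : ∃ t : Finset Ω, ∀ x : K, algebraMap K Ω x ∈ IntermediateField.adjoin ℚ (t : Set Ω) := by
    let B := Module.finBasis ℚ K
    refine ⟨Finset.univ.image fun i => algebraMap K Ω (B i), fun x => ?_⟩
    rw [← B.sum_repr x, map_sum]
    refine sum_mem fun i _ => ?_
    rw [Algebra.smul_def, map_mul]
    refine mul_mem ?_ ?_
    · rw [← IsScalarTower.algebraMap_apply ℚ K Ω]
      exact IntermediateField.algebraMap_mem _ _
    · apply IntermediateField.subset_adjoin
      simp
  obtain ⟨t, ht⟩ := hK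
  have hxy : ∃ t' : Finset Ω, ∀ x y h, P = Affine.Point.some x y h → x ∈ t' ∧ y ∈ t' := by
    rcases P with _ | ⟨x, y, h⟩
    · exact ⟨∅, fun x y h e => by simp at e⟩
    · refine ⟨{x, y}, fun x' y' h' e => ?_⟩
      rw [Affine.Point.some.injEq] at e
      rw [e.1, e.2]
      simp
  obtain ⟨t', ht'⟩ := hxy
  let F : IntermediateField ℚ Ω := IntermediateField.adjoin ℚ ((t ∪ t' : Finset Ω) : Set Ω)
  haveI hFfin : FiniteDimensional ℚ F :=
    IntermediateField.finiteDimensional_adjoin fun x _ => Algebra.IsIntegral.isIntegral x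
  let M : IntermediateField ℚ Ω := IntermediateField.normalClosure ℚ F Ω
  haveI : FiniteDimensional ℚ M := normalClosure.is_finiteDimensional ℚ F Ω
  haveI : Normal ℚ M := normalClosure.normal ℚ F Ω
  haveI : IsGalois ℚ M := ⟨⟩
  haveI : NumberField M := ⟨⟩
  have hFM : F ≤ M := IntermediateField.le_normalClosure F
  have hιM : ∀ x : K, algebraMap K Ω x ∈ M := fun x => hFM (by
    refine IntermediateField.adjoin.mono ℚ _ _ ?_ (ht x)
    intro z hz
    rw [Finset.coe_union]
    exact Or.inl hz)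
  let ι : K →+* M := (algebraMap K Ω).codRestrict M.toSubfield hιM
  refine ⟨M, inferInstance, inferInstance, inferInstance, inferInstance, ι, ?_⟩
  have hιd : Disc (ι a) (ι b) := disc_map _ hd
  obtain ⟨j, hj⟩ := exists_map (algebraMap M Ω) (a := ι a) (b := ι b) (a' := algebraMap K Ω a)
    (b' := algebraMap K Ω b) rfl rfl hdΩ
  have hlift : ∃ Q : Pt (ι a) (ι b), j Q = P := by
    rcases P with _ | ⟨x, y, h⟩
    · exact ⟨0, map_zero j⟩
    · obtain ⟨hx, hy⟩ := ht' x y h rfl
      have hx' : x ∈ M := hFM (IntermediateField.subset_adjoin ℚ _ (by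
        rw [Finset.coe_union]; exact Or.inr hx))
      have hy' : y ∈ M := hFM (IntermediateField.subset_adjoin ℚ _ (by
        rw [Finset.coe_union]; exact Or.inr hy))
      have hns : (CV (ι a) (ι b)).toAffine.Nonsingular (⟨x, hx'⟩ : M) (⟨y, hy'⟩ : M) := by
        rw [nonsingular_iff hιd]
        have h1 := eqn_of h
        unfold Eqn at h1 ⊢
        apply Subtype.ext
        push_cast
        exact h1
      obtain ⟨h', e⟩ := hj _ _ hns
      exact ⟨_, e⟩
  obtain ⟨Q, hQ⟩ := hlift
  refine ⟨Q, ?_⟩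
  rw [← hP, ← hQ]
  exact (addOrderOf_injective j (map_inj _ j hj) Q).symm

/-- a Galois number field `M` with an embedding of `K` and a point of order `6 ^ s` -/
theorem exists_M (K : Type) [Field K] [NumberField K] (a b : K) (hd : Disc a b) (s : ℕ) :
    ∃ (M : Type) (_ : Field M) (_ : DecidableEq M) (_ : NumberField M) (_ : IsGalois ℚ M)
      (ι : K →+* M) (P : Pt (ι a) (ι b)), addOrderOf P = 6 ^ s :=
  exists_M_aux K (AlgebraicClosure K) a b hd s

end Pool.Agent.Y213.EC
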