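import Pool.Agent.Y213.EC.RedT
import Pool.Agent.Y213.EC.Div
import Pool.Agent.W401.Cheb.Main

/-! The primes at which an elliptic curve over a number field has many points killed by `6 ^ s`. -/

set_option autoImplicit false

namespace Pool.Agent.Y213.EC

open Pool.Agent.H901R3.MS WeierstrassCurve NumberField Pool.Agent.W401.Cheb Filter Topology

/-- the primes with a Frobenius element in `J` -/
theorem many_primes (M : Type) [Field M] [NumberField M] [IsGalois ℚ M] (J : Finset Gal(M/ℚ))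
    (hJ : J.Nonempty) (B : ℕ) : ∃ N₀ : ℕ, ∀ N : ℕ, N₀ ≤ N → ∃ T : Finset ℕ,
      (∀ p ∈ T, p ≤ N ∧ B ≤ p ∧ p.Prime ∧ ∃ g ∈ J, xp M g p ≠ 0) ∧
      (J.card : ℝ) * (Nat.primeCounting N : ℝ) ≤ 2 * Nat.card Gal(M/ℚ) * T.card := by
  classical
  obtain ⟨D, hD0, hD⟩ := torsor M
  set E : ℕ := B.factorial * D with hE
  have hE0 : 0 < E := Nat.mul_pos (Nat.factorial_pos _) hD0
  let a : ℕ → ℝ := fun p => ∑ g ∈ J, (xp M g p : ℝ)
  let b : ℕ → ℝ := fun p => if p ∣ E then 0 else a p
  have ha : Tendsto (Pool.Agent.W401.Cheb.M a) atTop (𝓝 (J.card : ℝ)) := by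
    have h1 : Tendsto (fun N => ∑ g ∈ J, Pool.Agent.W401.Cheb.M (fun p => (xp M g p : ℝ)) N) atTop
        (𝓝 (∑ g ∈ J, (1 : ℝ))) := tendsto_finsetSum _ fun g _ => chebotarev M g
    rw [Finset.sum_const, nsmul_eq_mul, mul_one] at h1
    refine h1.congr fun N => ?_
    rw [← M_sum]
  have hb : Tendsto (Pool.Agent.W401.Cheb.M b) atTop (𝓝 (J.card : ℝ)) := by
    refine M_congr hE0 ?_ ha
    intro p _ hpE
    simp only [b]
    rw [if_neg hpE]
  have hJ0 : (0 : ℝ) < J.card := by exact_mod_cast hJ.card_pos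
  have hev := hb.eventually (lt_mem_nhds (show (J.card : ℝ) / 2 < J.card by linarith))
  have hev2 := tendsto_pc.eventually_gt_atTop 0
  obtain ⟨N₀, hN₀⟩ := eventually_atTop.1 (hev.and hev2)
  refine ⟨N₀, fun N hN => ?_⟩
  obtain ⟨h1, h2⟩ := hN₀ N hN
  refine ⟨(pr N).filter fun p => B ≤ p ∧ ∃ g ∈ J, xp M g p ≠ 0, ?_, ?_⟩
  · intro p hp
    rw [Finset.mem_filter, mem_pr] at hp
    exact ⟨hp.1.1, hp.2.1, hp.1.2, hp.2.2⟩
  unfold Pool.Agent.W401.Cheb.M at h1
  rw [lt_div_iff₀ h2] at h1
  -- pointwise bound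
  have hpt : ∀ p ∈ pr N, b p ≤ if (B ≤ p ∧ ∃ g ∈ J, xp M g p ≠ 0) then
      (Nat.card Gal(M/ℚ) : ℝ) else 0 := by
    intro p hp
    have hpp : p.Prime := (mem_pr.1 hp).2
    haveI : Fact p.Prime := ⟨hpp⟩
    by_cases hpE : p ∣ E
    · simp only [b, if_pos hpE]
      split_ifs <;> positivity
    simp only [b, if_neg hpE]
    have hpB : B ≤ p := by
      by_contra hlt
      exact hpE (dvd_mul_of_dvd_left (Nat.dvd_factorial hpp.pos (by omega)) D)
    have hpD : ¬ p ∣ D := fun h => hpE (dvd_mul_of_dvd_right h _)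
    have htor := hD p hpD
    by_cases hne : ∃ g ∈ J, xp M g p ≠ 0
    · rw [if_pos ⟨hpB, hne⟩]
      haveI := finite_hom htor
      have hx : ∀ g, xp M g p = Nat.card {φ : 𝓞 M →+* AlgebraicClosure (ZMod p) //
          HasFrob p φ g} := by
        intro g
        unfold xp
        rw [dif_pos hpp]
      have h3 : ∑ g ∈ J, xp M g p ≤ Nat.card Gal(M/ℚ) := by
        rw [← htor.1, ← Finset.sum_coe_sort]
        calc ∑ g : J, xp M g p = Nat.card (Σ g : J, {φ : 𝓞 M →+* AlgebraicClosure (ZMod p) //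
              HasFrob p φ g.1}) := by
              rw [Nat.card_sigma]
              exact Finset.sum_congr rfl fun g _ => hx g
          _ ≤ Nat.card (𝓞 M →+* AlgebraicClosure (ZMod p)) := by
              refine Nat.card_le_card_of_injective (fun x => x.2.1) ?_
              rintro ⟨g, φ, hφ⟩ ⟨g', φ', hφ'⟩ (h : φ = φ')
              subst h
              have h4 : g = g' := Subtype.ext (frob_unique htor hφ hφ')
              subst h4
              rfl
      simp only [a]
      exact_mod_cast h3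
    · push Not at hne
      rw [if_neg (fun h => by
        obtain ⟨_, g, hg, hg'⟩ := h
        exact hg' (hne g hg))]
      simp only [a]
      refine le_of_eq (Finset.sum_eq_zero fun g hg => ?_)
      rw [hne g hg, Nat.cast_zero]
  have h3 := Finset.sum_le_sum hpt
  rw [← Finset.sum_filter, Finset.sum_const, nsmul_eq_mul] at h3
  nlinarith

/-- a positive proportion of primes `p` at which the curve has at least `j` points killed by
`6 ^ s`; the proportion times `j` is large -/
theorem dens_torsion (K : Type) [Field K] [NumberField K] (a b : 𝓞 K)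
    (hd : Disc (a : K) (b : K)) (s B : ℕ) :
    ∃ j : ℕ, 1 ≤ j ∧ ∃ N₀ : ℕ, ∀ N : ℕ, N₀ ≤ N → ∃ T : Finset ℕ,
      (∀ p ∈ T, p ≤ N ∧ B ≤ p ∧ ∃ (_ : Fact p.Prime) (φ : 𝓞 K →+* ZMod p), Disc (φ a) (φ b) ∧
        j ≤ Nat.card (Tor (Pt (φ a) (φ b)) (6 ^ s))) ∧
      ((s : ℝ) + 1) ^ 2 * (Nat.primeCounting N : ℝ) ≤
        2 * Module.finrank ℚ K * (1 + s * Real.log 63) * (j * T.card) := by
  classical
  obtain ⟨M, _, _, _, _, ι, P₀, hP₀⟩ := exists_M K (a : K) (b : K) hd s
  have hdM : Disc (ι a) (ι b) := disc_map ι hd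
  let H : Subgroup Gal(M/ℚ) :=
    { carrier := {g | ∀ x : K, g (ι x) = ι x}
      mul_mem' := by
        intro g g' hg hg' x
        show g (g' (ι x)) = ι x
        rw [hg', hg]
      one_mem' := fun x => rfl
      inv_mem' := by
        intro g hg x
        show g⁻¹ (ι x) = ι x
        have h1 : g (ι x) = ι x := hg x
        calc g⁻¹ (ι x) = g⁻¹ (g (ι x)) := by rw [h1]
          _ = ι x := by
            rw [← AlgEquiv.mul_apply, inv_mul_cancel, AlgEquiv.one_apply] }
  have hH : ∀ g ∈ H, ∀ x : K, g (ι x) = ι x := fun g hg => hg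
  obtain ⟨hfin, hcard⟩ := tor_six (a := ι a) (b := ι b) s
  have hH' : ∀ g ∈ H, g (ι a) = ι a ∧ g (ι b) = ι b := fun g hg => ⟨hH g hg a, hH g hg b⟩
  -- Burnside
  haveI : Fintype H := Fintype.ofFinite H
  have h1 := burnside hdM H hH' (6 ^ s) (by positivity) hfin P₀ hP₀
  rw [finsum_eq_sum_of_fintype, Nat.card_eq_fintype_card] at h1
  have hdiv : (Nat.divisors (6 ^ s)).card = (s + 1) ^ 2 := by
    have h6 : (6 : ℕ) ^ s = 2 ^ s * 3 ^ s := by rw [← mul_pow]; norm_num
    rw [h6, Nat.Coprime.card_divisors_mul (Nat.Coprime.pow s s (by norm_num)),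
      Nat.divisors_prime_pow Nat.prime_two, Nat.divisors_prime_pow Nat.prime_three]
    simp [pow_two]
  rw [hdiv] at h1
  have hfxle : ∀ g : H, fx hdM H hH' (6 ^ s) g ≤ 63 ^ s := by
    intro g
    unfold fx
    haveI := hfin
    exact (Nat.card_le_card_of_injective (fun x : {P : Tor (Pt (ι a) (ι b)) (6 ^ s) //
      act hdM H hH' g P.1 = P.1} => x.1) Subtype.val_injective).trans hcard
  have hHpos : 0 < Fintype.card H := Fintype.card_pos
  obtain ⟨j, hj1, hj2, hj⟩ := layer (Finset.univ : Finset H) (fx hdM H hH' (6 ^ s)) (63 ^ s)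
    (Nat.one_le_pow _ _ (by norm_num)) (fun g _ => hfxle g) (((s : ℝ) + 1) ^ 2) (by
      rw [Finset.card_univ]
      exact_mod_cast h1) (by
      rw [Finset.card_univ]
      positivity)
  set J' : Finset H := Finset.univ.filter fun g => j ≤ fx hdM H hH' (6 ^ s) g with hJ'
  let J : Finset Gal(M/ℚ) := J'.map ⟨Subtype.val, Subtype.val_injective⟩
  have hJcard : J.card = J'.card := Finset.card_map _
  rw [Finset.card_univ] at hj
  have hW : Real.log ((63 ^ s : ℕ) : ℝ) = s * Real.log 63 := by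
    push_cast
    rw [Real.log_pow]
  rw [hW] at hj
  have hlog : 0 < 1 + (s : ℝ) * Real.log 63 := by
    have : 0 ≤ Real.log 63 := Real.log_nonneg (by norm_num)
    positivity
  have hJne : J.Nonempty := by
    rw [← Finset.card_pos, hJcard]
    by_contra h0
    have h2 : J'.card = 0 := by omega
    rw [h2] at hj
    have h3 : (0 : ℝ) < ((s : ℝ) + 1) ^ 2 * Fintype.card H := by positivity
    simp only [CharP.cast_eq_zero, mul_zero, zero_mul] at hj
    linarith
  obtain ⟨p₁, hp₁⟩ := red_count K M ι a b hdM (6 ^ s) H hH hfin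
  obtain ⟨N₀, hN₀⟩ := many_primes M J hJne (max B p₁)
  refine ⟨j, hj1, N₀, fun N hN => ?_⟩
  obtain ⟨T, hT1, hT2⟩ := hN₀ N hN
  refine ⟨T, ?_, ?_⟩
  · intro p hp
    obtain ⟨h2, h3, hpp, g, hg, hx⟩ := hT1 p hp
    haveI : Fact p.Prime := ⟨hpp⟩
    refine ⟨h2, (le_max_left _ _).trans h3, inferInstance, ?_⟩
    obtain ⟨g', hg', rfl⟩ := Finset.mem_map.1 hg
    have hx' : Nonempty {φ : 𝓞 M →+* AlgebraicClosure (ZMod p) // HasFrob p φ g'.1} := by
      by_contra hem
      apply hx
      unfold xp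
      rw [dif_pos hpp]
      haveI : IsEmpty {φ : 𝓞 M →+* AlgebraicClosure (ZMod p) // HasFrob p φ g'.1} :=
        not_nonempty_iff.1 hem
      exact Nat.card_of_isEmpty
    obtain ⟨ψ, hψ⟩ := hx'
    obtain ⟨φ, _, h4, h5⟩ := hp₁ p ((le_max_right _ _).trans h3) g' ψ hψ
    refine ⟨φ, h4, ?_⟩
    rw [hJ', Finset.mem_filter] at hg'
    exact hg'.2.trans h5
  · -- the index of `H`
    have hidx : Nat.card Gal(M/ℚ) ≤ Module.finrank ℚ K * Fintype.card H := by
      haveI : Finite (K →+* M) := inferInstance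
      haveI : Fintype (K →+* M) := Fintype.ofFinite _
      let f : Gal(M/ℚ) → (K →+* M) := fun g => ((g : M ≃+* M) : M →+* M).comp ι
      have h2 : Fintype.card (K →+* M) ≤ Module.finrank ℚ K := by
        have h3 := card_algHom_le_finrank ℚ K M
        rw [← Nat.card_eq_fintype_card]
        refine le_trans (le_of_eq ?_) h3
        exact Nat.card_congr (RingHom.equivRatAlgHom K M)
      have h3 : ∀ σ : K →+* M, (Finset.univ.filter fun g : Gal(M/ℚ) => f g = σ).card ≤
          Fintype.card H := by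
        intro σ
        by_cases hne : ∃ g₀, f g₀ = σ
        · obtain ⟨g₀, hg₀⟩ := hne
          rw [← Finset.card_univ]
          refine Finset.card_le_card_of_injOn (fun g => if h : g₀⁻¹ * g ∈ H then ⟨g₀⁻¹ * g, h⟩
            else 1) (fun _ _ => Finset.mem_coe.2 (Finset.mem_univ _)) ?_
          have h4 : ∀ g ∈ (Finset.univ.filter fun g : Gal(M/ℚ) => f g = σ), g₀⁻¹ * g ∈ H := by
            intro g hg x
            have h5 : f g = f g₀ := by rw [hg₀]; exact (Finset.mem_filter.1 hg).2
            have h6 : g (ι x) = g₀ (ι x) := congrArg (fun τ : K →+* M => τ x) h5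
            show g₀⁻¹ (g (ι x)) = ι x
            rw [h6, ← AlgEquiv.mul_apply, inv_mul_cancel, AlgEquiv.one_apply]
          intro g hg g' hg' h
          simp only [dif_pos (h4 g hg), dif_pos (h4 g' hg'), Subtype.mk.injEq] at h
          exact mul_left_cancel h
        · have h4 : (Finset.univ.filter fun g : Gal(M/ℚ) => f g = σ) = ∅ := by
            rw [Finset.filter_eq_empty_iff]
            intro g _ hg
            exact hne ⟨g, hg⟩
          rw [h4]
          simp
      rw [Nat.card_eq_fintype_card, ← Finset.card_univ]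
      rw [Finset.card_eq_sum_card_fiberwise (f := f) (t := Finset.univ)
        (fun _ _ => Finset.mem_coe.2 (Finset.mem_univ _))]
      refine (Finset.sum_le_sum fun σ _ => h3 σ).trans ?_
      rw [Finset.sum_const, Finset.card_univ, smul_eq_mul]
      exact Nat.mul_le_mul_right _ h2
    have hidx' : (Nat.card Gal(M/ℚ) : ℝ) ≤ Module.finrank ℚ K * Fintype.card H := by
      exact_mod_cast hidx
    rw [hJcard] at hT2
    have hHpos' : (0 : ℝ) < Fintype.card H := by exact_mod_cast hHpos
    have hj0 : (0 : ℝ) < j := by exact_mod_cast hj1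
    -- multiply
    have e1 : (((s : ℝ) + 1) ^ 2 * Fintype.card H) * (Nat.primeCounting N : ℝ) ≤
        (j * J'.card * (1 + s * Real.log 63)) * (Nat.primeCounting N : ℝ) :=
      mul_le_mul_of_nonneg_right hj (Nat.cast_nonneg _)
    have e2 : (j * J'.card * (1 + s * Real.log 63)) * (Nat.primeCounting N : ℝ) ≤
        j * (1 + s * Real.log 63) * (2 * Nat.card Gal(M/ℚ) * T.card) := by
      have : (j * J'.card * (1 + s * Real.log 63)) * (Nat.primeCounting N : ℝ) =
        j * (1 + s * Real.log 63) * (J'.card * (Nat.primeCounting N : ℝ)) := by ring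
      rw [this]
      exact mul_le_mul_of_nonneg_left hT2 (by positivity)
    have e3 : j * (1 + s * Real.log 63) * (2 * Nat.card Gal(M/ℚ) * T.card) ≤
        j * (1 + s * Real.log 63) * (2 * (Module.finrank ℚ K * Fintype.card H) * T.card) := by
      refine mul_le_mul_of_nonneg_left ?_ (by positivity)
      exact mul_le_mul_of_nonneg_right (mul_le_mul_of_nonneg_left hidx' (by norm_num))
        (Nat.cast_nonneg _)
    have e4 := e1.trans (e2.trans e3)
    have e5 : Fintype.card H * (((s : ℝ) + 1) ^ 2 * (Nat.primeCounting N : ℝ)) ≤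
        Fintype.card H * (2 * Module.finrank ℚ K * (1 + s * Real.log 63) * (j * T.card)) := by
      linarith
    exact le_of_mul_le_mul_left e5 hHpos'

end Pool.Agent.Y213.EC
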