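import Pool.Agent.Y213.EC.Orb

/-! The action of a group of automorphisms of the field on the torsion points. -/

set_option autoImplicit false

namespace Pool.Agent.Y213.EC

open Pool.Agent.H901R3.MS WeierstrassCurve

/-- a function with a large mean value is large on a large set -/
theorem layer {ι : Type} (H : Finset ι) (f : ι → ℕ) (W : ℕ) (hW : 1 ≤ W) (hf : ∀ i ∈ H, f i ≤ W)
    (τ : ℝ) (hτ : τ * H.card ≤ ∑ i ∈ H, (f i : ℝ)) (h0 : 0 < τ * H.card) :
    ∃ j : ℕ, 1 ≤ j ∧ j ≤ W ∧
      τ * H.card ≤ j * (H.filter fun i => j ≤ f i).card * (1 + Real.log W) := by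
  classical
  by_contra hcon
  push Not at hcon
  have h1 : ∑ i ∈ H, (f i : ℝ) = ∑ j ∈ Finset.Icc 1 W, ((H.filter fun i => j ≤ f i).card : ℝ) := by
    have h2 : ∀ i ∈ H, (f i : ℝ) = ∑ j ∈ Finset.Icc 1 W, (if j ≤ f i then (1 : ℝ) else 0) := by
      intro i hi
      rw [Finset.sum_ite, Finset.sum_const_zero, add_zero, Finset.sum_const, nsmul_eq_mul, mul_one]
      congr 1
      have h3 : (Finset.Icc 1 W).filter (fun j => j ≤ f i) = Finset.Icc 1 (f i) := by
        ext j
        simp only [Finset.mem_filter, Finset.mem_Icc]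
        have := hf i hi
        omega
      rw [h3, Nat.card_Icc]
      omega
    rw [Finset.sum_congr rfl h2, Finset.sum_comm]
    refine Finset.sum_congr rfl fun j _ => ?_
    rw [Finset.sum_ite, Finset.sum_const_zero, add_zero, Finset.sum_const, nsmul_eq_mul, mul_one]
  have hlog : 0 < 1 + Real.log W := by
    have : 0 ≤ Real.log W := Real.log_natCast_nonneg W
    linarith
  have h4 : ∀ j ∈ Finset.Icc 1 W, ((H.filter fun i => j ≤ f i).card : ℝ) <
      (τ * H.card / (1 + Real.log W)) * (j : ℝ)⁻¹ := by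
    intro j hj
    rw [Finset.mem_Icc] at hj
    have h5 := hcon j hj.1 hj.2
    have hj0 : (0 : ℝ) < j := by exact_mod_cast hj.1
    rw [← div_eq_mul_inv, lt_div_iff₀ hj0, lt_div_iff₀ hlog]
    linarith
  have h5 : ∑ j ∈ Finset.Icc 1 W, ((H.filter fun i => j ≤ f i).card : ℝ) <
      ∑ j ∈ Finset.Icc 1 W, (τ * H.card / (1 + Real.log W)) * (j : ℝ)⁻¹ :=
    Finset.sum_lt_sum_of_nonempty ⟨1, Finset.mem_Icc.2 ⟨le_rfl, hW⟩⟩ h4
  rw [← Finset.mul_sum] at h5
  have h6 : ∑ j ∈ Finset.Icc 1 W, (j : ℝ)⁻¹ ≤ 1 + Real.log W := by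
    have h7 := harmonic_le_one_add_log W
    have h8 : ((harmonic W : ℚ) : ℝ) = ∑ j ∈ Finset.Icc 1 W, (j : ℝ)⁻¹ := by
      rw [harmonic_eq_sum_Icc]
      push_cast
      rfl
    rw [← h8]
    exact h7
  have h7 : (τ * H.card / (1 + Real.log W)) * ∑ j ∈ Finset.Icc 1 W, (j : ℝ)⁻¹ ≤ τ * H.card := by
    have h8 : 0 < τ * H.card / (1 + Real.log W) := div_pos h0 hlog
    refine (mul_le_mul_of_nonneg_left h6 h8.le).trans ?_
    rw [div_mul_cancel₀ _ hlog.ne']
  rw [h1] at hτ
  linarith

section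
variable {M : Type} [Field M] [DecidableEq M] [CharZero M] {a b : M}

variable (hd : Disc a b) (H : Subgroup Gal(M/ℚ)) (hH : ∀ g ∈ H, g a = a ∧ g b = b)

/-- the automorphism as a homomorphism of points -/
noncomputable def act (g : H) : Pt a b →+ Pt a b :=
  (exists_map ((g.1 : M ≃+* M) : M →+* M) (a := a) (b := b) (a' := a) (b' := b) (hH g.1 g.2).1
    (hH g.1 g.2).2 hd).choose

theorem act_some (g : H) (x y : M) (h : (CV a b).toAffine.Nonsingular x y) :
    ∃ h' : (CV a b).toAffine.Nonsingular (g.1 x) (g.1 y),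
      act hd H hH g (Affine.Point.some x y h) = Affine.Point.some _ _ h' :=
  (exists_map ((g.1 : M ≃+* M) : M →+* M) (a := a) (b := b) (a' := a) (b' := b) (hH g.1 g.2).1
    (hH g.1 g.2).2 hd).choose_spec x y h

theorem act_inj (g : H) : Function.Injective (act hd H hH g) :=
  map_inj ((g.1 : M ≃+* M) : M →+* M) (act hd H hH g) fun x y h => act_some hd H hH g x y h

theorem act_one (P : Pt a b) : act hd H hH 1 P = P := by
  rcases P with _ | ⟨x, y, h⟩
  · exact map_zero _
  · obtain ⟨h', e⟩ := act_some hd H hH 1 x y h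
    rw [e]
    rfl

theorem act_mul (g g' : H) (P : Pt a b) :
    act hd H hH (g * g') P = act hd H hH g (act hd H hH g' P) := by
  rcases P with _ | ⟨x, y, h⟩
  · exact (map_zero _).trans (by
      have h1 : act hd H hH g' Affine.Point.zero = 0 := map_zero _
      rw [h1, map_zero])
  · obtain ⟨h', e⟩ := act_some hd H hH (g * g') x y h
    obtain ⟨h1, e1⟩ := act_some hd H hH g' x y h
    obtain ⟨h2, e2⟩ := act_some hd H hH g _ _ h1
    rw [e, e1, e2]
    rfl

/-- the action on the points killed by `m` -/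
noncomputable def mact (m : ℕ) : MulAction H (Tor (Pt a b) m) where
  smul g P := ⟨act hd H hH g P.1, by rw [← map_nsmul, P.2, map_zero]⟩
  one_smul P := Subtype.ext (act_one hd H hH P.1)
  mul_smul g g' P := Subtype.ext (act_mul hd H hH g g' P.1)

/-- the number of the fixed points killed by `m` -/
noncomputable def fx (m : ℕ) (g : H) : ℕ := Nat.card {P : Tor (Pt a b) m // act hd H hH g P.1 = P.1}

theorem burnside (m : ℕ) (hm : 0 < m) [Finite H] (hfin : Finite (Tor (Pt a b) m)) (P₀ : Pt a b)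
    (hP₀ : addOrderOf P₀ = m) :
    m.divisors.card * Nat.card H ≤ ∑ᶠ g : H, fx hd H hH m g := by
  classical
  letI := mact hd H hH m
  haveI : Fintype H := Fintype.ofFinite H
  haveI : Fintype (Tor (Pt a b) m) := Fintype.ofFinite _
  haveI : Fintype (Quotient (MulAction.orbitRel H (Tor (Pt a b) m))) := Fintype.ofFinite _
  have h1 := MulAction.sum_card_fixedBy_eq_card_orbits_mul_card_group H (Tor (Pt a b) m)
  rw [finsum_eq_sum_of_fintype, Nat.card_eq_fintype_card]
  have h2 : ∀ g : H, Fintype.card (MulAction.fixedBy (Tor (Pt a b) m) g) = fx hd H hH m g := by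
    intro g
    unfold fx
    rw [← Nat.card_eq_fintype_card]
    apply Nat.card_congr
    refine Equiv.subtypeEquivRight fun P => ?_
    rw [MulAction.mem_fixedBy]
    exact ⟨fun h => congrArg Subtype.val h, fun h => Subtype.ext h⟩
  rw [← Finset.sum_congr rfl fun g _ => h2 g, h1]
  refine Nat.mul_le_mul_right _ ?_
  -- the orders
  let o : Quotient (MulAction.orbitRel H (Tor (Pt a b) m)) → ℕ :=
    Quotient.lift (fun P : Tor (Pt a b) m => addOrderOf P.1) (by
      rintro P Q ⟨g, hg⟩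
      have h3 : act hd H hH g Q.1 = P.1 := congrArg Subtype.val hg
      show addOrderOf P.1 = addOrderOf Q.1
      rw [← h3]
      exact addOrderOf_injective (act hd H hH g) (act_inj hd H hH g) Q.1)
  rw [← Finset.card_univ]
  refine le_trans (Finset.card_le_card (t := Finset.univ.image o) ?_) Finset.card_image_le
  intro d hdm
  rw [Nat.mem_divisors] at hdm
  rw [Finset.mem_image]
  have hdvd : m / d ∣ addOrderOf P₀ := by
    rw [hP₀]
    exact Nat.div_dvd_of_dvd hdm.1
  have h4 : addOrderOf ((m / d) • P₀) = d := by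
    have h5 : m / d ≠ 0 := (Nat.div_pos (Nat.le_of_dvd hm hdm.1) (Nat.pos_of_dvd_of_pos hdm.1 hm)).ne'
    rw [addOrderOf_nsmul_of_dvd h5 hdvd, hP₀]
    exact Nat.div_div_self hdm.1 hm.ne'
  refine ⟨Quotient.mk _ ⟨(m / d) • P₀, ?_⟩, Finset.mem_univ _, h4⟩
  rw [smul_comm, ← hP₀, addOrderOf_nsmul_eq_zero, smul_zero]

end

end Pool.Agent.Y213.EC
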