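import Pool.Agent.Y213.EC.Primes
import Pool.Agent.H901R3.MS.P_M1K
import Pool.Agent.H901R3.MS.P_M2
import Pool.Agent.H901R3.MS.P_PTSK

/-! Closed subvarieties of `E ^ r × ℙ ^ n`: values of polynomials, reduction, classes. -/

set_option autoImplicit false

namespace Pool.Agent.Y213.EC

open MvPolynomial NumberField Pool.Agent.H901R3.MS WeierstrassCurve

/-- polynomials with coefficients in `O` in the homogeneous coordinates `V i j` of `r` points of the
projective plane and in `n` further variables -/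
abbrev Pol (O : Type) [CommRing O] (r n : ℕ) : Type := MvPolynomial ((Fin r × Fin 3) ⊕ Fin n) O

/-- homogeneous of degree `d i` in the coordinates of the `i`-th point of the plane -/
def MHomog {O : Type} [CommRing O] {r n : ℕ} (F : Pol O r n) (d : Fin r → ℕ) : Prop :=
  ∀ m ∈ F.support, ∀ i, ∑ j, m (Sum.inl (i, j)) = d i

/-- homogeneous of degree `k` in the last `n` variables -/
def XHomog {O : Type} [CommRing O] {r n : ℕ} (F : Pol O r n) (k : ℕ) : Prop :=
  ∀ m ∈ F.support, ∑ i, m (Sum.inr i) = k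

/-- the value `F(V; t)`; the coefficients are mapped to `k` by `φ` -/
noncomputable def vl {O k : Type} [CommRing O] [CommRing k] (φ : O →+* k) {r n : ℕ}
    (F : Pol O r n) (V : Fin r → Fin 3 → k) (t : Fin n → k) : k :=
  eval₂ φ (Sum.elim (fun ij => V ij.1 ij.2) t) F

/-- the polynomial `F(V; T_1, …, T_n)` over `k` -/
noncomputable def spc {O k : Type} [CommRing O] [CommRing k] (φ : O →+* k) {r n : ℕ}
    (F : Pol O r n) (V : Fin r → Fin 3 → k) : MvPolynomial (Fin n) k :=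
  eval₂ (C.comp φ) (Sum.elim (fun ij => C (V ij.1 ij.2)) X) F

theorem vl_map {O A B : Type} [CommRing O] [CommRing A] [CommRing B] (φ : O →+* A) (ψ : A →+* B)
    {r n : ℕ} (F : Pol O r n) (V : Fin r → Fin 3 → A) (t : Fin n → A) :
    ψ (vl φ F V t) = vl (ψ.comp φ) F (fun i j => ψ (V i j)) (fun i => ψ (t i)) := by
  unfold vl
  rw [hom_eval₂]
  congr 1
  funext x
  rcases x with ij | i <;> rfl

theorem vl_expand {O A : Type} [CommRing O] [CommRing A] (φ : O →+* A) {r n : ℕ}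
    (F : Pol O r n) (V : Fin r → Fin 3 → A) (t : Fin n → A) :
    vl φ F V t = ∑ m ∈ F.support, φ (coeff m F) * ((∏ i, ∏ j, V i j ^ m (Sum.inl (i, j))) *
      ∏ k, t k ^ m (Sum.inr k)) := by
  unfold vl
  rw [eval₂_eq']
  refine Finset.sum_congr rfl fun m _ => ?_
  rw [Fintype.prod_sum_type, Fintype.prod_prod_type]
  simp

theorem vl_scale {O A : Type} [CommRing O] [CommRing A] (φ : O →+* A) {r n : ℕ}
    (F : Pol O r n) (d : Fin r → ℕ) (hF : MHomog F d) (V : Fin r → Fin 3 → A)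
    (t : Fin n → A) (c : Fin r → A) :
    vl φ F (fun i j => c i * V i j) t = (∏ i, c i ^ d i) * vl φ F V t := by
  rw [vl_expand, vl_expand, Finset.mul_sum]
  refine Finset.sum_congr rfl fun m hm => ?_
  have h1 : ∏ i, ∏ j, (c i * V i j) ^ m (Sum.inl (i, j)) =
      (∏ i, c i ^ d i) * ∏ i, ∏ j, V i j ^ m (Sum.inl (i, j)) := by
    rw [← Finset.prod_mul_distrib]
    refine Finset.prod_congr rfl fun i _ => ?_
    rw [← hF m hm i, ← Finset.prod_pow_eq_pow_sum, ← Finset.prod_mul_distrib]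
    refine Finset.prod_congr rfl fun j _ => ?_
    rw [mul_pow]
  rw [h1]
  ring

theorem vl_eq {O A : Type} [CommRing O] [CommRing A] (φ : O →+* A) {r n : ℕ}
    (F : Pol O r n) (V : Fin r → Fin 3 → A) (t : Fin n → A) :
    vl φ F V t = eval t (spc φ F V) := by
  unfold spc vl
  rw [hom_eval₂]
  have h1 : (eval t : MvPolynomial (Fin n) A →+* A).comp (C.comp φ) = φ := by
    ext x
    simp
  rw [h1]
  congr 1
  funext x
  rcases x with ij | i <;> simp

theorem spc_expand {O A : Type} [CommRing O] [CommRing A] (φ : O →+* A) {r n : ℕ}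
    (F : Pol O r n) (V : Fin r → Fin 3 → A) :
    spc φ F V = ∑ m ∈ F.support, monomial
      (Finsupp.equivFunOnFinite.symm fun i : Fin n => m (Sum.inr i))
      (φ (coeff m F) * ∏ i, ∏ j, V i j ^ m (Sum.inl (i, j))) := by
  have h := vl_expand (C.comp φ) F (fun i j => (C (V i j) : MvPolynomial (Fin n) A)) X
  have h2 : vl (C.comp φ) F (fun i j => (C (V i j) : MvPolynomial (Fin n) A)) X = spc φ F V := rfl
  rw [← h2, h]
  refine Finset.sum_congr rfl fun m _ => ?_
  rw [monomial_eq, Finsupp.prod_fintype _ _ (fun i => by simp)]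
  simp only [RingHom.comp_apply, C_mul, map_prod, map_pow, Finsupp.equivFunOnFinite_symm_apply_apply]
  ring

theorem spc_support {O A : Type} [CommRing O] [CommRing A] (φ : O →+* A) {r n : ℕ}
    (F : Pol O r n) (k : ℕ) (hF : XHomog F k) (V : Fin r → Fin 3 → A) :
    (spc φ F V).support ⊆ Finset.finsuppAntidiag Finset.univ k := by
  classical
  rw [spc_expand]
  refine (support_sum).trans ?_
  intro e he
  rw [Finset.mem_biUnion] at he
  obtain ⟨m, hm, he⟩ := he
  have h1 := support_monomial_subset he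
  rw [Finset.mem_singleton] at h1
  rw [Finset.mem_finsuppAntidiag]
  refine ⟨?_, Finset.subset_univ _⟩
  rw [h1]
  exact hF m hm

/-- reduction of the value of a polynomial at a place -/
theorem loc_val {K k : Type} [Field K] [Field k] (v : Place K k) (φ : 𝓞 K →+* k)
    (hv : ∀ x : 𝓞 K, (x : K) ∈ v.A ∧ v.r (x : K) = φ x) {r n : ℕ}
    (V : Fin r → Fin 3 → K) (W : Fin r → Fin 3 → k)
    (c : Fin r → K) (hc : ∀ i j, c i * V i j ∈ v.A ∧ v.r (c i * V i j) = W i j)
    (F : Pol (𝓞 K) r n) (d : Fin r → ℕ) (hF : MHomog F d) (t : Fin n → 𝓞 K) :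
    (∏ i, c i ^ d i) * vl (algebraMap (𝓞 K) K) F V (fun i => (t i : K)) ∈ v.A ∧
    v.r ((∏ i, c i ^ d i) * vl (algebraMap (𝓞 K) K) F V (fun i => (t i : K))) =
      vl φ F W (fun i => φ (t i)) := by
  let ψ : 𝓞 K →+* v.A :=
    { toFun := fun x => ⟨(x : K), (hv x).1⟩
      map_one' := by ext; simp
      map_mul' := fun x y => by ext; simp
      map_zero' := by ext; simp
      map_add' := fun x y => by ext; simp }
  have hψ1 : v.A.subtype.comp ψ = algebraMap (𝓞 K) K := by
    ext x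
    rfl
  have hψ2 : v.ρ.comp ψ = φ := by
    ext x
    have h1 := (hv x).2
    rw [v.r_of (hv x).1] at h1
    exact h1
  set V' : Fin r → Fin 3 → v.A := fun i j => ⟨c i * V i j, (hc i j).1⟩ with hV'
  set x : v.A := vl ψ F V' (fun i => ψ (t i)) with hx
  have hxK : (x : K) = (∏ i, c i ^ d i) *
      vl (algebraMap (𝓞 K) K) F V (fun i => (t i : K)) := by
    have h1 := vl_map ψ v.A.subtype F V' (fun i => ψ (t i))
    have h2 : v.A.subtype x = (x : K) := rfl
    rw [← h2, hx, h1, hψ1, ← vl_scale _ F d hF]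
    rfl
  have hval : v.ρ x = vl φ F W (fun i => φ (t i)) := by
    rw [hx, vl_map, hψ2]
    congr 1
    · funext i j
      have h3 := (hc i j).2
      rw [v.r_of (hc i j).1] at h3
      exact h3
    · funext i
      exact congrArg (fun f : 𝓞 K →+* k => f (t i)) hψ2
  rw [← hxK]
  exact ⟨x.2, by rw [v.r_of x.2]; exact hval⟩

theorem onK_rep {k : Type} [Field k] {a b : k} (P : Pt a b) : OnK a b (rep P) := by
  rcases P with _ | ⟨x, y, h⟩
  · refine ⟨fun h => ?_, ?_⟩
    · have := congrFun h 1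
      simp [rep] at this
    · simp [rep]
  · refine ⟨fun h => ?_, ?_⟩
    · have := congrFun h 2
      simp [rep] at this
    · have h1 := eqn_of h
      unfold Eqn at h1
      simp only [rep]
      simp
      exact h1

/-- the `K`-points of `E ^ r` fall in at most `L ^ R` classes; at the places at which `L` kills the
group of the reduced curve, the points of a class have the same reduction -/
theorem classes (K : Type) [Field K] [NumberField K] (r : ℕ) (a b : 𝓞 K)
    (hd : Disc (a : K) (b : K)) : ∃ R : ℕ, ∀ L : ℕ, 1 ≤ L →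
    ∃ (Q : Type) (_ : Fintype Q), Fintype.card Q ≤ L ^ R ∧ ∃ cls : (Fin r → Fin 3 → K) → Q,
    ∀ (p : ℕ) [Fact p.Prime] (φ : 𝓞 K →+* ZMod p), Disc (φ a) (φ b) →
    (∀ P : Pt (φ a) (φ b), L • P = 0) → ∃ V' : Q → Fin r → Fin 3 → ZMod p,
      ∀ V : Fin r → Fin 3 → K, (∀ i, OnK (a : K) (b : K) (V i)) →
      (∀ i, OnK (φ a) (φ b) (V' (cls V) i)) ∧
      ∃ (v : Place K (ZMod p)) (c : Fin r → K), (∀ x : 𝓞 K, (x : K) ∈ v.A ∧ v.r (x : K) = φ x) ∧
        (∀ i, c i ≠ 0) ∧ ∀ (n : ℕ) (F : Pol (𝓞 K) r n) (d : Fin r → ℕ), MHomog F d →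
        ∀ t : Fin n → 𝓞 K,
          (∏ i, c i ^ d i) * vl (algebraMap (𝓞 K) K) F V (fun i => (t i : K)) ∈ v.A ∧
          v.r ((∏ i, c i ^ d i) * vl (algebraMap (𝓞 K) K) F V (fun i => (t i : K))) =
            vl φ F (V' (cls V)) (fun i => φ (t i)) := by
  classical
  obtain ⟨R, hR⟩ := t_M2 _ (t_M1K K (a : K) (b : K) hd)
  refine ⟨R * r, fun L hL => ?_⟩
  obtain ⟨A, hAc, hAr⟩ := hR L hL
  choose κ₀ hκ₀ δ₀ hδ₀ using hAr
  have hst : ∀ V : Fin r → Fin 3 → K, ∃ P : Fin r → Pt (a : K) (b : K),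
      (∀ i, OnK (a : K) (b : K) (V i)) → ∃ c : Fin r → K, (∀ i, c i ≠ 0) ∧
        ∀ i j, V i j = c i * rep (P i) j := by
    intro V
    by_cases hV : ∀ i, OnK (a : K) (b : K) (V i)
    · have h1 : ∀ i, ∃ (P : Pt (a : K) (b : K)) (c : K), c ≠ 0 ∧ ∀ j, V i j = c * rep P j :=
        fun i => t_PTSK K a b (V i) hd (hV i)
      choose P c hc0 hc1 using h1
      exact ⟨P, fun _ => ⟨c, hc0, hc1⟩⟩
    · exact ⟨fun _ => 0, fun h => absurd h hV⟩
  choose PP hPP using hst
  refine ⟨Fin r → A, inferInstance, ?_, fun V i => ⟨κ₀ (PP V i), hκ₀ (PP V i)⟩, ?_⟩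
  · rw [Fintype.card_fun, Fintype.card_fin, Fintype.card_coe, pow_mul]
    exact Nat.pow_le_pow_left hAc r
  intro p _ φ hdφ hkill
  obtain ⟨v, hv⟩ := exists_place K (ZMod p) p (Fact.out : p.Prime).ne_zero φ
  obtain ⟨red, hred⟩ := exists_red v (a := (a : K)) (b := (b : K)) (a' := φ a) (b' := φ b)
    (hv a).1 (hv b).1 (hv a).2 (hv b).2 hdφ
  have hredL : ∀ κ δ : Pt (a : K) (b : K), red (κ + L • δ) = red κ := by
    intro κ δ
    rw [map_add, map_nsmul, hkill, add_zero]
  refine ⟨fun q i => rep (red (q i).1), ?_⟩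
  intro V hV
  have hP : ∀ i, red (PP V i) = red (κ₀ (PP V i)) := by
    intro i
    conv_lhs => rw [hδ₀ (PP V i)]
    exact hredL _ _
  obtain ⟨c₁, hc₁, hcv⟩ := hPP V hV
  have h3 : ∀ i, ∃ z : K, z ≠ 0 ∧ ∀ j, z * rep (PP V i) j ∈ v.A ∧
      v.r (z * rep (PP V i) j) = rep (red (PP V i)) j := fun i =>
    rep_red v (hv a).1 (hv b).1 (hv a).2 (hv b).2 hred (PP V i)
  choose z hz0 hz1 using h3
  refine ⟨fun i => onK_rep _, v, fun i => z i * (c₁ i)⁻¹, hv, ?_, ?_⟩
  · intro i
    exact mul_ne_zero (hz0 i) (inv_ne_zero (hc₁ i))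
  · intro n F d hF t
    refine loc_val v φ hv V _ (fun i => z i * (c₁ i)⁻¹) (fun i j => ?_) F d hF t
    have h4 : z i * (c₁ i)⁻¹ * V i j = z i * rep (PP V i) j := by
      rw [hcv i j]
      field_simp [hc₁ i]
    rw [h4]
    refine ⟨(hz1 i j).1, ?_⟩
    rw [(hz1 i j).2, hP i]

end Pool.Agent.Y213.EC
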