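import Pool.Agent.W659.SA.Defs

/-! Integral representatives of the points of projective space of bounded height. -/

set_option autoImplicit false

namespace Pool.Agent.Y213.EC

open NumberField Height

/-- the absolute values are bounded by the height -/
theorem norm_le_height {K : Type} [Field K] [NumberField K] (x : K) (τ : K →+* ℂ) :
    ‖τ x‖ ≤ mulHeight₁ x := by
  rw [NumberField.mulHeight₁_eq]
  set v₀ : InfinitePlace K := InfinitePlace.mk τ with hv₀
  have h0 : ‖τ x‖ = v₀ x := (InfinitePlace.apply τ x).symm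
  rw [h0]
  have h1 : ∀ v : InfinitePlace K, 1 ≤ max (v x) 1 ^ v.mult := fun v =>
    one_le_pow₀ (le_max_right _ _)
  have h2 : 1 ≤ ∏ᶠ v : FinitePlace K, max (v x) 1 :=
    finprod_induction (p := fun y : ℝ => 1 ≤ y) le_rfl
      (fun a b ha hb => one_le_mul_of_one_le_of_one_le ha hb) (fun v => le_max_right _ _)
  have h3 : v₀ x ≤ ∏ v : InfinitePlace K, max (v x) 1 ^ v.mult := by
    classical
    rw [← Finset.mul_prod_erase Finset.univ _ (Finset.mem_univ v₀)]
    have h4 : 1 ≤ ∏ v ∈ Finset.univ.erase v₀, max (v x) 1 ^ v.mult :=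
      Finset.prod_induction _ (fun y : ℝ => 1 ≤ y)
        (fun a b ha hb => one_le_mul_of_one_le_of_one_le ha hb) le_rfl (fun v _ => h1 v)
    have h5 : v₀ x ≤ max (v₀ x) 1 ^ v₀.mult :=
      (le_max_left _ _).trans (le_self_pow₀ (le_max_right _ _) v₀.mult_ne_zero)
    have h6 : 0 ≤ max (v₀ x) 1 ^ v₀.mult := by positivity
    nlinarith
  have h4 : 0 ≤ ∏ v : InfinitePlace K, max (v x) 1 ^ v.mult := by
    refine Finset.prod_nonneg fun v _ => by positivity
  nlinarith

/-- integral representatives -/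
theorem int_rep {K : Type} [Field K] [NumberField K] {n : ℕ} (w : Fin n → K) (hw : w ≠ 0) (B : ℝ)
    (hB : mulHeight w ≤ B) : ∃ (x : Fin n → 𝓞 K) (u : K), u ≠ 0 ∧ (∀ i, (x i : K) = u * w i) ∧
      ∀ i (τ : K →+* ℂ), ‖τ (x i : K)‖ ≤ B ^ (n + 1) := by
  classical
  have hB1 : 1 ≤ B := (one_le_mulHeight w).trans hB
  obtain ⟨i₀, hi₀⟩ := Function.ne_iff.1 hw
  have hi₀' : w i₀ ≠ 0 := hi₀
  have h1 : ∀ i, mulHeight₁ (w i / w i₀) ≤ B := by
    intro i
    rw [mulHeight₁_div_eq_mulHeight]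
    have h2 : ![w i, w i₀] = w ∘ ![i, i₀] := by
      funext j
      fin_cases j <;> rfl
    rw [h2]
    exact (mulHeight_comp_le _ _).trans hB
  have h2 : ∀ i, ∃ m : ℕ, m ≠ 0 ∧ (m : ℝ) ≤ B ∧ IsIntegral ℤ ((m : K) * (w i / w i₀)) := by
    intro i
    obtain ⟨m, hm0, hm1, hm2⟩ := NumberField.exists_nat_le_mulHeight₁ (w i / w i₀)
    exact ⟨m, hm0, hm1.trans (h1 i), hm2⟩
  choose m hm0 hm1 hm2 using h2
  set D : ℕ := ∏ i, m i with hD
  have hD0 : D ≠ 0 := Finset.prod_ne_zero_iff.2 fun i _ => hm0 i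
  have hDB : (D : ℝ) ≤ B ^ n := by
    rw [hD]
    push_cast
    calc ∏ i, (m i : ℝ) ≤ ∏ _i : Fin n, B :=
          Finset.prod_le_prod (fun i _ => Nat.cast_nonneg _) fun i _ => hm1 i
      _ = B ^ n := by rw [Finset.prod_const, Finset.card_univ, Fintype.card_fin]
  have hint : ∀ i, IsIntegral ℤ ((D : K) * (w i / w i₀)) := by
    intro i
    obtain ⟨e, he⟩ := Finset.dvd_prod_of_mem m (Finset.mem_univ i)
    have h3 : (D : K) * (w i / w i₀) = (e : K) * ((m i : K) * (w i / w i₀)) := by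
      rw [hD, he]
      push_cast
      ring
    rw [h3]
    exact (isIntegral_algebraMap (R := ℤ) (A := K) (x := (e : ℤ)) |> fun h => by
      simpa using h.mul (hm2 i))
  refine ⟨fun i => ⟨(D : K) * (w i / w i₀), hint i⟩, (D : K) / w i₀, ?_, ?_, ?_⟩
  · exact div_ne_zero (by exact_mod_cast hD0) hi₀'
  · intro i
    show (D : K) * (w i / w i₀) = (D : K) / w i₀ * w i
    ring
  · intro i τ
    show ‖τ ((D : K) * (w i / w i₀))‖ ≤ B ^ (n + 1)
    rw [map_mul, map_natCast, norm_mul, Complex.norm_natCast, pow_succ]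
    exact mul_le_mul hDB ((norm_le_height _ τ).trans (h1 i)) (norm_nonneg _) (by positivity)

/-- a basis of the ring of integers; the coordinates are bounded by the absolute values -/
theorem coord_bound (K : Type) [Field K] [NumberField K] :
    ∃ (N : ℕ) (ω : Module.Basis (Fin N) ℤ (𝓞 K)) (C : ℝ), ∀ (α : 𝓞 K) (M : ℝ), 0 ≤ M →
      (∀ τ : K →+* ℂ, ‖τ (α : K)‖ ≤ M) → ∀ j, |((ω.repr α j : ℤ) : ℝ)| ≤ C * M := by
  classical
  let e := (Fintype.equivFin (Module.Free.ChooseBasisIndex ℤ (𝓞 K)))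
  obtain ⟨C, hC⟩ : ∃ C : ℝ, ∀ (α : 𝓞 K) (i : K →+* ℂ),
      ‖(((integralBasis K).reindex (NumberField.equivReindex K).symm).repr α i : ℂ)‖ ≤
      C * house (algebraMap (𝓞 K) K α) :=
    ⟨_, fun α i => NumberField.house.basis_repr_norm_le_const_mul_house K α i⟩
  refine ⟨_, (RingOfIntegers.basis K).reindex e, max C 0, ?_⟩
  intro α M hM hα j
  have h1 := hC α (NumberField.equivReindex K |>.symm (e.symm j))
  rw [Module.Basis.repr_reindex, Finsupp.mapDomain_equiv_apply, Equiv.symm_symm] at h1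
  rw [Equiv.apply_symm_apply, integralBasis_repr_apply] at h1
  have h2 : house (algebraMap (𝓞 K) K α) ≤ M := by
    rw [house]
    rw [pi_norm_le_iff_of_nonneg hM]
    intro τ
    exact hα τ
  have h3 : |(((((RingOfIntegers.basis K).reindex e).repr α j : ℤ)) : ℝ)| =
      ‖((((RingOfIntegers.basis K).repr α (e.symm j) : ℤ) : ℚ) : ℂ)‖ := by
    rw [Module.Basis.repr_reindex, Finsupp.mapDomain_equiv_apply]
    simp
  rw [h3]
  have h4 : C * house (algebraMap (𝓞 K) K α) ≤ max C 0 * M := by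
    have h5 : 0 ≤ house (algebraMap (𝓞 K) K α) := house_nonneg _
    calc C * house (algebraMap (𝓞 K) K α) ≤ max C 0 * house (algebraMap (𝓞 K) K α) :=
          mul_le_mul_of_nonneg_right (le_max_left _ _) h5
      _ ≤ max C 0 * M := mul_le_mul_of_nonneg_left h2 (le_max_right _ _)
  exact h1.trans h4

end Pool.Agent.Y213.EC
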