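import Pool.Agent.Y213.EC.Trans
import Pool.Agent.Y213.EC.Ht
import Pool.Agent.W305.SA.DET
import Pool.Agent.W305.SA.DETF

/-! The theorem on closed subvarieties of `E ^ r × ℙ ^ n`. -/

set_option autoImplicit false

namespace Pool.Agent.Y213.EC

open MvPolynomial NumberField Pool.Agent.H901R3.MS WeierstrassCurve

open Pool.Agent.W659.SA (vec)

open scoped LinearAlgebra.Projectivization

/-- if among any `D + 1` elements of `P` two are equal, `P` has at most `D` elements -/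
theorem pick {α : Type} (P : Set α) (D : ℕ)
    (h : ∀ f : Fin (D + 1) → α, (∀ l, f l ∈ P) → ∃ l l', l ≠ l' ∧ f l = f l') :
    ∃ Z : Finset α, Z.card ≤ D ∧ P ⊆ Z := by
  classical
  by_contra hcon
  push Not at hcon
  have key : ∀ m : ℕ, m ≤ D + 1 → ∃ t : Finset α, (t : Set α) ⊆ P ∧ t.card = m := by
    intro m
    induction m with
    | zero => exact fun _ => ⟨∅, by simp, rfl⟩
    | succ m ih =>
      intro hm
      obtain ⟨t, ht, htc⟩ := ih (by omega)
      obtain ⟨x, hx, hxt⟩ := Set.not_subset.1 (hcon t (by omega))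
      refine ⟨insert x t, ?_, ?_⟩
      · rw [Finset.coe_insert]
        exact Set.insert_subset hx ht
      · rw [Finset.card_insert_of_notMem hxt, htc]
  obtain ⟨t, ht, htc⟩ := key (D + 1) le_rfl
  let e : Fin (D + 1) ≃ t := (Fin.castOrderIso htc.symm).toEquiv.trans t.equivFin.symm
  obtain ⟨l, l', hl, hll⟩ := h (fun l => (e l : α)) (fun l => ht (e l).2)
  exact hl (e.injective (Subtype.ext hll))

theorem vl_xscale {O A : Type} [CommRing O] [CommRing A] (φ : O →+* A) {r n : ℕ}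
    (F : Pol O r n) (k : ℕ) (hF : XHomog F k) (V : Fin r → Fin 3 → A)
    (t : Fin n → A) (u : A) :
    vl φ F V (fun i => u * t i) = u ^ k * vl φ F V t := by
  rw [vl_expand, vl_expand, Finset.mul_sum]
  refine Finset.sum_congr rfl fun m hm => ?_
  have h1 : ∏ i, (u * t i) ^ m (Sum.inr i) = u ^ k * ∏ i, t i ^ m (Sum.inr i) := by
    rw [← hF m hm, ← Finset.prod_pow_eq_pow_sum, ← Finset.prod_mul_distrib]
    refine Finset.prod_congr rfl fun i _ => ?_
    rw [mul_pow]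
  rw [h1]
  ring

theorem supp_of_homog {K : Type} [Field K] {n k : ℕ} {f : MvPolynomial (Fin n) K}
    (h : f.IsHomogeneous k) : f.support ⊆ Finset.finsuppAntidiag Finset.univ k := by
  intro m hm
  have h1 := h (mem_support_iff.1 hm)
  rw [Finset.mem_finsuppAntidiag]
  refine ⟨?_, Finset.subset_univ _⟩
  rw [Finsupp.weight_apply, Finsupp.sum_fintype _ _ (fun _ => by simp)] at h1
  simpa using h1

theorem homog_of_supp {K : Type} [Field K] {n k : ℕ} {f : MvPolynomial (Fin n) K}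
    (h : f.support ⊆ Finset.finsuppAntidiag Finset.univ k) : f.IsHomogeneous k := by
  intro m hm
  have h1 := h (mem_support_iff.2 hm)
  rw [Finset.mem_finsuppAntidiag] at h1
  rw [Finsupp.weight_apply, Finsupp.sum_fintype _ _ (fun _ => by simp)]
  simpa using h1.1

/-- `c` is the coordinate vector of a point over which there is a point of the variety -/
def Good {K : Type} [Field K] [NumberField K] {N : ℕ} (ω : Module.Basis (Fin N) ℤ (𝓞 K))
    {r n q : ℕ} (a b : 𝓞 K) (G : Fin q → Pol (𝓞 K) r n) (c : Fin n × Fin N → ℤ) : Prop :=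
  ∃ V : Fin r → Fin 3 → K, (∀ i, OnK (a : K) (b : K) (V i)) ∧
    ∀ e, vl (algebraMap (𝓞 K) K) (G e) V (fun i => ((vec ω c i : 𝓞 K) : K)) = 0

theorem hs (K : Type) [Field K] [NumberField K] (N : ℕ) (ω : Module.Basis (Fin N) ℤ (𝓞 K))
    (r n q : ℕ) (a b : 𝓞 K) (hd : Disc (a : K) (b : K)) (G : Fin q → Pol (𝓞 K) r (n + 1))
    (d : Fin q → Fin r → ℕ) (k : Fin q → ℕ) (k' : ℕ) (hk : ∀ e, k e ≤ k')
    (hG : ∀ e, MHomog (G e) (d e)) (hX : ∀ e, XHomog (G e) (k e)) (σ : K →+* ℂ)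
    (hns : ∀ V : Fin r → Fin 3 → ℂ, (∀ i, OnK (σ a) (σ b) (V i)) → ∃ e, spc (toC σ) (G e) V ≠ 0)
    (ε : ℝ) (hε : 0 < ε) :
    ∃ H₀ : ℕ, 3 ≤ H₀ ∧ ∀ H : ℕ, H₀ ≤ H → ∃ FF : Finset (MvPolynomial (Fin (n + 1)) K),
      (FF.card : ℝ) ≤ (H : ℝ) ^ ε ∧ (∀ f ∈ FF, f ≠ 0 ∧ f.IsHomogeneous k') ∧
      ∀ c : Fin (n + 1) × Fin N → ℤ, (∀ i, |c i| ≤ H) → Good ω a b G c →
        ∃ f ∈ FF, eval (fun i => ((vec ω c i : 𝓞 K) : K)) f = 0 := by
  classical
  obtain ⟨R, hcl⟩ := classes K r a b hd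
  obtain ⟨p₁, hp₁⟩ := trz K r (n + 1) a b (Fin q) G σ hns
  obtain ⟨C₀, hC1, hC⟩ := Pool.Agent.W305.SA.DET.main K N ω (n + 1)
    (Finset.finsuppAntidiag Finset.univ k')
  obtain ⟨H₀, hH₀, hmain⟩ := primesE K a b hd p₁ R C₀ ε hε
  refine ⟨H₀, hH₀, fun H hH => ?_⟩
  obtain ⟨T, L, hL, hT, hprod, hLR⟩ := hmain H hH
  obtain ⟨Q, _, hQ, cls, hcls⟩ := hcl L hL
  have key : ∀ x : Q, ∃ f : MvPolynomial (Fin (n + 1)) K, f ≠ 0 ∧ f.IsHomogeneous k' ∧
      ∀ c : Fin (n + 1) × Fin N → ℤ, (∀ i, |c i| ≤ H) →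
        (∃ V : Fin r → Fin 3 → K, (∀ i, OnK (a : K) (b : K) (V i)) ∧ cls V = x ∧
          ∀ e, vl (algebraMap (𝓞 K) K) (G e) V (fun i => ((vec ω c i : 𝓞 K) : K)) = 0) →
        eval (fun i => ((vec ω c i : 𝓞 K) : K)) f = 0 := by
    intro x
    obtain ⟨f, hf0, hfΛ, hf⟩ := hC H T (fun p hp => by
        obtain ⟨_, hF, _⟩ := hT p hp
        exact hF.out) hprod
      {c | (∀ i, |c i| ≤ H) ∧ ∃ V : Fin r → Fin 3 → K, (∀ i, OnK (a : K) (b : K) (V i)) ∧
        cls V = x ∧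
        ∀ e, vl (algebraMap (𝓞 K) K) (G e) V (fun i => ((vec ω c i : 𝓞 K) : K)) = 0}
      (fun c hc => hc.1) (by
        intro p hp
        obtain ⟨hp1, hF, φ, hdφ, hkill⟩ := hT p hp
        haveI := hF
        obtain ⟨V', hV'⟩ := hcls p φ hdφ hkill
        by_cases hne : ∃ V : Fin r → Fin 3 → K, (∀ i, OnK (a : K) (b : K) (V i)) ∧ cls V = x
        · obtain ⟨V₀, hV₀, hx₀⟩ := hne
          have h3 := (hV' V₀ hV₀).1
          rw [hx₀] at h3
          obtain ⟨e, he⟩ := hp₁ p hF.out hp1 (ZMod p) φ (V' x) h3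
          have hg1 : (spc φ (G e) (V' x)).IsHomogeneous (k e) :=
            homog_of_supp (spc_support φ _ _ (hX e) _)
          have hg2 : (spc φ (G e) (V' x) * X 0 ^ (k' - k e)).IsHomogeneous k' := by
            have h4 := hg1.mul ((isHomogeneous_X (ZMod p) (0 : Fin (n + 1))).pow (k' - k e))
            have h5 : k e + 1 * (k' - k e) = k' := by have := hk e; omega
            rwa [h5] at h4
          refine ⟨ZMod p, inferInstance, inferInstance, φ,
            spc φ (G e) (V' x) * X 0 ^ (k' - k e), ?_, supp_of_homog hg2, ?_⟩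
          · exact mul_ne_zero he (pow_ne_zero _ (X_ne_zero _))
          · rintro c ⟨_, V, hV, hx, hc⟩
            obtain ⟨_, v, z, hv, hz, hval⟩ := hV' V hV
            have h5 := (hval (n + 1) (G e) (d e) (hG e) (vec ω c)).2
            rw [hc e, mul_zero, Place.r_zero, hx, vl_eq] at h5
            rw [map_mul, ← h5, zero_mul]
        · refine ⟨ZMod p, inferInstance, inferInstance, φ, X 0 ^ k', pow_ne_zero _ (X_ne_zero _),
            supp_of_homog ?_, ?_⟩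
          · have h4 := (isHomogeneous_X (ZMod p) (0 : Fin (n + 1))).pow k'
            rwa [one_mul] at h4
          · rintro c ⟨_, V, hV, hx, hc⟩
            exact absurd ⟨V, hV, hx⟩ hne)
    exact ⟨f, hf0, homog_of_supp hfΛ, fun c hc h => hf c ⟨hc, h⟩⟩
  choose f hf0 hfh hf using key
  refine ⟨Finset.univ.image f, ?_, ?_, ?_⟩
  · refine le_trans ?_ hLR
    have h1 : (Finset.univ.image f).card ≤ L ^ R := (Finset.card_image_le).trans hQ
    exact_mod_cast h1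
  · intro g hg
    rw [Finset.mem_image] at hg
    obtain ⟨x, _, rfl⟩ := hg
    exact ⟨hf0 x, hfh x⟩
  · rintro c hc ⟨V, hV, h⟩
    exact ⟨f (cls V), Finset.mem_image_of_mem _ (Finset.mem_univ _), hf (cls V) c hc
      ⟨V, hV, rfl, h⟩⟩

theorem hfin (K : Type) [Field K] [NumberField K] (N : ℕ) (ω : Module.Basis (Fin N) ℤ (𝓞 K))
    (r n q : ℕ) (a b : 𝓞 K) (hd : Disc (a : K) (b : K)) (G : Fin q → Pol (𝓞 K) r n)
    (d : Fin q → Fin r → ℕ) (hG : ∀ e, MHomog (G e) (d e)) (σ : K →+* ℂ) (D : ℕ)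
    (hns : ∀ V : Fin r → Fin 3 → ℂ, (∀ i, OnK (σ a) (σ b) (V i)) → AtMost (toC σ) G V D)
    (ε : ℝ) (hε : 0 < ε) :
    ∃ H₀ : ℕ, 3 ≤ H₀ ∧ ∀ H : ℕ, H₀ ≤ H → ∃ Z : Finset (ℙ K (Fin n → K)),
      (Z.card : ℝ) ≤ D * (H : ℝ) ^ ε ∧
      ∀ (c : Fin n × Fin N → ℤ) (h0 : (fun i => ((vec ω c i : 𝓞 K) : K)) ≠ 0),
        (∀ i, |c i| ≤ H) → Good ω a b G c → Projectivization.mk K _ h0 ∈ Z := by
  classical
  obtain ⟨R, hcl⟩ := classes K r a b hd
  obtain ⟨p₁, hp₁⟩ := trf K r n a b (Fin q) G σ D hns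
  obtain ⟨C₀, hC1, hC⟩ := Pool.Agent.W305.SA.DETF.main K N ω n D
  obtain ⟨H₀, hH₀, hmain⟩ := primesE K a b hd p₁ R C₀ ε hε
  refine ⟨H₀, hH₀, fun H hH => ?_⟩
  obtain ⟨T, L, hL, hT, hprod, hLR⟩ := hmain H hH
  obtain ⟨Q, _, hQ, cls, hcls⟩ := hcl L hL
  -- the points of a class
  let P : Q → Set (ℙ K (Fin n → K)) := fun x => {y | ∃ c : Fin n × Fin N → ℤ,
    (∀ i, |c i| ≤ H) ∧
    ∃ h : (fun i => ((vec ω c i : 𝓞 K) : K)) ≠ 0, y = Projectivization.mk K _ h ∧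
      ∃ (V : Fin r → Fin 3 → K), (∀ i, OnK (a : K) (b : K) (V i)) ∧ cls V = x ∧
        ∀ e, vl (algebraMap (𝓞 K) K) (G e) V (fun i => ((vec ω c i : 𝓞 K) : K)) = 0}
  have key : ∀ x : Q, ∃ Z : Finset (ℙ K (Fin n → K)), Z.card ≤ D ∧ P x ⊆ Z := by
    intro x
    apply pick
    intro f hf
    choose c hc hne hmk V hV hx hsol using hf
    have h1 : ∀ l, ∃ i, vec ω (c l) i ≠ 0 := by
      intro l
      obtain ⟨i, hi⟩ := Function.ne_iff.1 (hne l)
      refine ⟨i, fun h => hi ?_⟩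
      simp only [h, Pi.zero_apply]
      simp
    obtain ⟨l, l', hll, z, hz⟩ := hC H T (fun p hp => by
        obtain ⟨_, hF, _⟩ := hT p hp
        exact hF.out) hprod c hc h1 (by
      intro p hp
      obtain ⟨hp1, hF, φ, hdφ, hkill⟩ := hT p hp
      haveI := hF
      obtain ⟨V', hV'⟩ := hcls p φ hdφ hkill
      have h3 := (hV' (V 0) (hV 0)).1
      rw [hx 0] at h3
      refine ⟨ZMod p, inferInstance, inferInstance, φ, ?_⟩
      by_cases h0 : ∃ l, ∀ i, φ (vec ω (c l) i) = 0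
      · exact Or.inl h0
      right
      push Not at h0
      have h4 := hp₁ p hF.out hp1 (ZMod p) φ (V' x) h3
        (fun l i => φ (vec ω (c l) i)) (fun l h => by
          obtain ⟨i, hi⟩ := h0 l
          exact hi (congrFun h i)) (fun l e => by
          obtain ⟨_, v, z, hv, hz, hval⟩ := hV' (V l) (hV l)
          have h5 := (hval n (G e) (d e) (hG e) (vec ω (c l))).2
          rw [hsol l e, mul_zero, Place.r_zero, hx l] at h5
          exact h5.symm)
      obtain ⟨l, l', hll, z, hz⟩ := h4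
      exact ⟨l, l', hll, z, fun i => congrFun hz i⟩)
    refine ⟨l, l', hll, ?_⟩
    rw [hmk l, hmk l', Projectivization.mk_eq_mk_iff']
    refine ⟨z, ?_⟩
    funext i
    exact (hz i).symm
  choose Z hZ1 hZ2 using key
  refine ⟨(Finset.univ : Finset Q).biUnion Z, ?_, ?_⟩
  · have h1 : ((Finset.univ : Finset Q).biUnion Z).card ≤ D * L ^ R := by
      refine Finset.card_biUnion_le.trans ?_
      calc ∑ x : Q, (Z x).card ≤ ∑ _x : Q, D := Finset.sum_le_sum fun x _ => hZ1 x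
        _ = Fintype.card Q * D := by rw [Finset.sum_const, Finset.card_univ, smul_eq_mul]
        _ ≤ L ^ R * D := Nat.mul_le_mul_right _ hQ
        _ = D * L ^ R := mul_comm _ _
    have h2 : ((((Finset.univ : Finset Q).biUnion Z).card : ℕ) : ℝ) ≤ D * (L : ℝ) ^ R := by
      exact_mod_cast h1
    exact h2.trans (mul_le_mul_of_nonneg_left hLR (Nat.cast_nonneg _))
  · rintro c h0 hc ⟨V, hV, h⟩
    rw [Finset.mem_biUnion]
    exact ⟨cls V, Finset.mem_univ _, hZ2 (cls V) ⟨c, hc, h0, rfl, V, hV, rfl, h⟩⟩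

end Pool.Agent.Y213.EC
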