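import Pool.Agent.Y213.EC.Red

/-! Torsion points, the action of a group of automorphisms of the field, counting of the fixed
points. -/

set_option autoImplicit false

namespace Pool.Agent.Y213.EC

open Pool.Agent.H901R3.MS WeierstrassCurve

/-! ### Torsion in abelian groups -/

/-- the elements killed by `m` -/
abbrev Tor (G : Type) [AddCommGroup G] (m : ℕ) : Type := {P : G // m • P = 0}

theorem tor_mul {G : Type} [AddCommGroup G] (m n : ℕ) (hm : Finite (Tor G m))
    (hn : Finite (Tor G n)) :
    Finite (Tor G (m * n)) ∧ Nat.card (Tor G (m * n)) ≤ Nat.card (Tor G m) * Nat.card (Tor G n) := by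
  classical
  -- a section of the multiplication by `m`
  let f : Tor G (m * n) → Tor G n := fun P => ⟨m • P.1, by
    rw [smul_smul, mul_comm]; exact P.2⟩
  have hsec : ∀ R : Tor G n, ∃ S : Tor G (m * n), ∀ P : Tor G (m * n), f P = R → m • S.1 = R.1 := by
    intro R
    by_cases h : ∃ S, f S = R
    · obtain ⟨S, hS⟩ := h
      exact ⟨S, fun _ _ => congrArg Subtype.val hS⟩
    · exact ⟨⟨0, smul_zero _⟩, fun P hP => absurd ⟨P, hP⟩ h⟩
  choose S hS using hsec
  let g : Tor G (m * n) → Tor G m × Tor G n := fun P => (⟨P.1 - (S (f P)).1, by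
    rw [smul_sub, hS (f P) P rfl]
    exact sub_self _⟩, f P)
  have hg : Function.Injective g := by
    intro P Q hPQ
    have h2 : f P = f Q := (Prod.ext_iff.1 hPQ).2
    have h1 : P.1 - (S (f P)).1 = Q.1 - (S (f Q)).1 :=
      congrArg Subtype.val (Prod.ext_iff.1 hPQ).1
    rw [h2] at h1
    exact Subtype.ext (sub_left_injective h1)
  refine ⟨Finite.of_injective g hg, ?_⟩
  rw [← Nat.card_prod]
  exact Nat.card_le_card_of_injective g hg

theorem tor_pow {G : Type} [AddCommGroup G] (m : ℕ) (hm : Finite (Tor G m)) (s : ℕ) :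
    Finite (Tor G (m ^ s)) ∧ Nat.card (Tor G (m ^ s)) ≤ Nat.card (Tor G m) ^ s := by
  induction s with
  | zero =>
    have h : ∀ P : Tor G (m ^ 0), P = ⟨0, smul_zero _⟩ := by
      rintro ⟨P, hP⟩
      apply Subtype.ext
      simpa using hP
    have : Subsingleton (Tor G (m ^ 0)) := ⟨fun P Q => by rw [h P, h Q]⟩
    refine ⟨inferInstance, ?_⟩
    rw [pow_zero (Nat.card (Tor G m))]
    exact Finite.card_le_one_iff_subsingleton.2 inferInstance
  | succ s ih =>
    have h := tor_mul (m ^ s) m ih.1 hm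
    rw [← pow_succ] at h
    refine ⟨h.1, h.2.trans ?_⟩
    rw [pow_succ (Nat.card (Tor G m))]
    exact Nat.mul_le_mul_right _ ih.2

/-! ### Torsion of order two and three -/

section
variable {F : Type} [Field F] [DecidableEq F] {a b : F}

theorem two_tor {x y : F} (h : (CV a b).toAffine.Nonsingular x y)
    (h2 : (2 : ℕ) • (Affine.Point.some x y h : Pt a b) = 0) (h20 : (2 : F) ≠ 0) : y = 0 := by
  by_contra hy
  have h3 : y ≠ -y := by
    intro h4
    have h5 : 2 * y = 0 := by linear_combination h4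
    exact (mul_ne_zero h20 hy) h5
  obtain ⟨h', e⟩ := add_dbl h h rfl h3 _ _ _ rfl rfl rfl
  rw [two_nsmul, e] at h2
  exact absurd h2 (by simp)

theorem three_tor {x y : F} (h : (CV a b).toAffine.Nonsingular x y)
    (h3 : (3 : ℕ) • (Affine.Point.some x y h : Pt a b) = 0) (h20 : (2 : F) ≠ 0) :
    3 * x ^ 4 + 6 * a * x ^ 2 + 12 * b * x - a ^ 2 = 0 := by
  by_cases hy : y = 0
  · -- then `2 P = 0` and `P = 0`
    exfalso
    have h4 := add_opp h h rfl (by rw [hy, neg_zero])
    have h5 : (3 : ℕ) • (Affine.Point.some x y h : Pt a b) =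
        (Affine.Point.some x y h + Affine.Point.some x y h) + Affine.Point.some x y h := by
      abel
    rw [h5, h4, zero_add] at h3
    exact absurd h3 (by simp)
  have hyy : y ≠ -y := by
    intro h4
    have h5 : 2 * y = 0 := by linear_combination h4
    exact (mul_ne_zero h20 hy) h5
  obtain ⟨h', e⟩ := add_dbl h h rfl hyy _ _ _ rfl rfl rfl
  have hne : (CV a b).toAffine.Nonsingular x (-y) := by
    have := (Affine.nonsingular_neg x y).2 h
    simpa [Affine.negY, CV] using this
  have h5 : (Affine.Point.some x y h : Pt a b) + Affine.Point.some x y h =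
      -(Affine.Point.some x y h) := by
    have h6 : (3 : ℕ) • (Affine.Point.some x y h : Pt a b) =
        (Affine.Point.some x y h + Affine.Point.some x y h) + Affine.Point.some x y h := by
      abel
    rw [h6] at h3
    exact eq_neg_of_add_eq_zero_left h3
  rw [e, neg_some' h hne] at h5
  rw [Affine.Point.some.injEq] at h5
  have h6 := h5.1
  have h7 := eqn_of h
  unfold Eqn at h7
  field_simp at h6
  have h9 : (3 * x ^ 2 + a) ^ 2 = 12 * x * y ^ 2 := by linear_combination h6
  linear_combination -h9 - 12 * x * h7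

theorem card_of_x (S : Finset F) (T : Set (Pt a b))
    (hT : ∀ P ∈ T, P = 0 ∨ ∃ x y h, P = Affine.Point.some x y h ∧ x ∈ S) :
    T.Finite ∧ T.ncard ≤ 1 + 2 * S.card := by
  classical
  have hy : ∀ x : F, ∃ y₀ : F, ∀ y, (CV a b).toAffine.Nonsingular x y → y = y₀ ∨ y = -y₀ := by
    intro x
    by_cases h : ∃ y, (CV a b).toAffine.Nonsingular x y
    · obtain ⟨y₀, hy₀⟩ := h
      refine ⟨y₀, fun y hy => ?_⟩
      have h1 := eqn_of hy₀
      have h2 := eqn_of hy
      unfold Eqn at h1 h2
      have h3 : (y - y₀) * (y + y₀) = 0 := by linear_combination h2 - h1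
      rcases mul_eq_zero.1 h3 with h4 | h4
      · exact Or.inl (sub_eq_zero.1 h4)
      · exact Or.inr (eq_neg_of_add_eq_zero_left h4)
    · exact ⟨0, fun y hy => absurd ⟨y, hy⟩ h⟩
  choose y₀ hy₀ using hy
  let f : Pt a b → Option (F × Bool) := fun P => match P with
    | .zero => none
    | .some x y _ => some (x, decide (y = y₀ x))
  have hf : Function.Injective f := by
    intro P Q hPQ
    rcases P with _ | ⟨x, y, h⟩ <;> rcases Q with _ | ⟨x', y', h'⟩
    · rfl
    · simp [f] at hPQ
    · simp [f] at hPQ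
    · simp only [f, Option.some.injEq, Prod.mk.injEq] at hPQ
      obtain ⟨rfl, h2⟩ := hPQ
      have h3 := hy₀ x y h
      have h4 := hy₀ x y' h'
      by_cases h5 : y = y₀ x
      · have h6 : y' = y₀ x := by simpa [h5] using h2
        simp only [h5, h6]
      · have h6 : y' ≠ y₀ x := by simpa [h5] using h2
        have h7 := h3.resolve_left h5
        have h8 := h4.resolve_left h6
        simp only [h7, h8]
  let U : Finset (Option (F × Bool)) := insert none ((S ×ˢ Finset.univ).image some)
  have hU : ∀ P ∈ T, f P ∈ U := by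
    intro P hP
    rcases hT P hP with rfl | ⟨x, y, h, rfl, hx⟩
    · exact Finset.mem_insert_self _ _
    · apply Finset.mem_insert_of_mem
      rw [Finset.mem_image]
      exact ⟨(x, decide (y = y₀ x)), Finset.mem_product.2 ⟨hx, Finset.mem_univ _⟩, rfl⟩
  have hfin : T.Finite := Set.Finite.of_finite_image (U.finite_toSet.subset (by
    rintro _ ⟨P, hP, rfl⟩
    exact hU P hP)) hf.injOn
  refine ⟨hfin, ?_⟩
  have h1 : T.ncard ≤ U.card := by
    rw [← Set.ncard_coe_finset]
    exact Set.ncard_le_ncard_of_injOn f (fun P hP => hU P hP) hf.injOn U.finite_toSet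
  refine h1.trans ((Finset.card_insert_le _ _).trans ?_)
  have h2 : ((S ×ˢ (Finset.univ : Finset Bool)).image some).card ≤ S.card * 2 := by
    refine Finset.card_image_le.trans ?_
    rw [Finset.card_product]
    simp
  omega

open Polynomial in
theorem tor_two [CharZero F] : Finite (Tor (Pt a b) 2) ∧ Nat.card (Tor (Pt a b) 2) ≤ 7 := by
  have h20 : (2 : F) ≠ 0 := two_ne_zero
  have hp : (X ^ 3 + C a * X + C b : F[X]) ≠ 0 := by
    intro h
    have := congrArg (fun q => coeff q 3) h
    simp [coeff_X] at this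
  have hdeg : (X ^ 3 + C a * X + C b : F[X]).natDegree ≤ 3 := by compute_degree
  have h := card_of_x (a := a) (b := b) (X ^ 3 + C a * X + C b : F[X]).roots.toFinset
    {P | (2 : ℕ) • P = 0} (by
      intro P hP
      rcases P with _ | ⟨x, y, h⟩
      · exact Or.inl rfl
      · refine Or.inr ⟨x, y, h, rfl, ?_⟩
        rw [Multiset.mem_toFinset, mem_roots hp, IsRoot.def]
        have h1 := two_tor h hP h20
        have h2 := eqn_of h
        unfold Eqn at h2
        rw [h1] at h2
        simp only [eval_add, eval_pow, eval_X, eval_mul, eval_C]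
        linear_combination -h2)
  refine ⟨h.1, ?_⟩
  have h3 : (X ^ 3 + C a * X + C b : F[X]).roots.toFinset.card ≤ 3 :=
    (Multiset.toFinset_card_le _).trans ((card_roots' _).trans hdeg)
  have h4 := h.2
  have h5 : Nat.card (Tor (Pt a b) 2) = ({P : Pt a b | (2 : ℕ) • P = 0}).ncard := rfl
  omega

open Polynomial in
theorem tor_three [CharZero F] : Finite (Tor (Pt a b) 3) ∧ Nat.card (Tor (Pt a b) 3) ≤ 9 := by
  have h20 : (2 : F) ≠ 0 := two_ne_zero
  have hp : (3 * X ^ 4 + C (6 * a) * X ^ 2 + C (12 * b) * X - C (a ^ 2) : F[X]) ≠ 0 := by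
    intro h
    have h4 : (3 * X ^ 4 + C (6 * a) * X ^ 2 + C (12 * b) * X - C (a ^ 2) : F[X]).natDegree = 4 := by
      compute_degree!
    rw [h, natDegree_zero] at h4
    omega
  have hdeg : (3 * X ^ 4 + C (6 * a) * X ^ 2 + C (12 * b) * X - C (a ^ 2) : F[X]).natDegree ≤ 4 := by
    compute_degree
  have h := card_of_x (a := a) (b := b)
    (3 * X ^ 4 + C (6 * a) * X ^ 2 + C (12 * b) * X - C (a ^ 2) : F[X]).roots.toFinset
    {P | (3 : ℕ) • P = 0} (by
      intro P hP
      rcases P with _ | ⟨x, y, h⟩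
      · exact Or.inl rfl
      · refine Or.inr ⟨x, y, h, rfl, ?_⟩
        rw [Multiset.mem_toFinset, mem_roots hp, IsRoot.def]
        have h1 := three_tor h hP h20
        simp only [eval_add, eval_sub, eval_pow, eval_X, eval_mul, eval_C, eval_ofNat]
        linear_combination h1)
  refine ⟨h.1, ?_⟩
  have h3 : (3 * X ^ 4 + C (6 * a) * X ^ 2 + C (12 * b) * X - C (a ^ 2) : F[X]).roots.toFinset.card
      ≤ 4 := (Multiset.toFinset_card_le _).trans ((card_roots' _).trans hdeg)
  have h4 := h.2
  have h5 : Nat.card (Tor (Pt a b) 3) = ({P : Pt a b | (3 : ℕ) • P = 0}).ncard := rfl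
  omega

/-- the bound for the number of the points killed by `6 ^ s` -/
theorem tor_six [CharZero F] (s : ℕ) :
    Finite (Tor (Pt a b) (6 ^ s)) ∧ Nat.card (Tor (Pt a b) (6 ^ s)) ≤ 63 ^ s := by
  have h2 := tor_two (a := a) (b := b)
  have h3 := tor_three (a := a) (b := b)
  have h6 := tor_mul 2 3 h2.1 h3.1
  have h7 := tor_pow (2 * 3) h6.1 s
  refine ⟨h7.1, h7.2.trans (Nat.pow_le_pow_left (h6.2.trans ?_) s)⟩
  exact Nat.mul_le_mul h2.2 h3.2

end

end Pool.Agent.Y213.EC
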