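import Pool.Agent.Y213.EC.Dens
import Pool.Agent.W52.SA.PRL

/-! The choice of the primes. -/

set_option autoImplicit false

namespace Pool.Agent.Y213.EC

open Pool.Agent.H901R3.MS WeierstrassCurve NumberField Filter Topology

/-- the number of the points over a finite field -/
theorem card_pt (p : ℕ) [Fact p.Prime] (a b : ZMod p) :
    Finite (Pt a b) ∧ Nat.card (Pt a b) ≤ 2 * p + 1 := by
  classical
  have h := card_of_x (a := a) (b := b) (Finset.univ : Finset (ZMod p)) Set.univ (by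
    rintro (_ | ⟨x, y, h⟩) _
    · exact Or.inl rfl
    · exact Or.inr ⟨x, y, h, rfl, Finset.mem_univ _⟩)
  rw [Finset.card_univ, ZMod.card, Set.ncard_univ] at h
  exact ⟨Set.finite_univ_iff.1 h.1, by omega⟩

/-- an abelian group with many elements of order dividing `m` has a small exponent -/
theorem kill {G : Type} [AddCommGroup G] [Finite G] (m j X : ℕ) (hj : 1 ≤ j)
    (hG : Nat.card G ≤ X) (hT : j ≤ Nat.card (Tor G m)) (P : G) :
    (m * Nat.lcmUpto (X / j)) • P = 0 := by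
  classical
  let A : AddSubgroup G :=
    { carrier := {P | m • P = 0}
      zero_mem' := smul_zero _
      add_mem' := by
        intro x y hx hy
        show m • (x + y) = 0
        have hx' : m • x = 0 := hx
        have hy' : m • y = 0 := hy
        rw [smul_add, hx', hy', add_zero]
      neg_mem' := by
        intro x hx
        show m • (-x) = 0
        have hx' : m • x = 0 := hx
        rw [smul_neg, hx', neg_zero] }
  have hA : Nat.card A = Nat.card (Tor G m) := rfl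
  have h1 : Nat.card (G ⧸ A) * Nat.card A = Nat.card G :=
    (AddSubgroup.card_eq_card_quotient_mul_card_addSubgroup A).symm
  have hq : 0 < Nat.card (G ⧸ A) := Nat.card_pos
  have h2 : Nat.card (G ⧸ A) ≤ X / j := by
    rw [Nat.le_div_iff_mul_le (by omega)]
    calc Nat.card (G ⧸ A) * j ≤ Nat.card (G ⧸ A) * Nat.card A := by
          rw [hA]
          exact Nat.mul_le_mul_left _ hT
      _ = Nat.card G := h1
      _ ≤ X := hG
  have h3 : Nat.card (G ⧸ A) ∣ Nat.lcmUpto (X / j) := by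
    unfold Nat.lcmUpto
    exact Finset.dvd_lcm (f := id) (Finset.mem_Icc.2 ⟨hq, h2⟩)
  have h4 : Nat.card (G ⧸ A) • P ∈ A := by
    rw [← QuotientAddGroup.eq_zero_iff, QuotientAddGroup.mk_nsmul]
    exact card_nsmul_eq_zero'
  obtain ⟨w, hw⟩ := h3
  have h5 : m • (Nat.card (G ⧸ A) • P) = 0 := h4
  rw [hw, ← mul_assoc, mul_comm (m * _) w, mul_smul, mul_smul, h5, smul_zero]

/-- lower bound for the number of primes -/
theorem cheb : ∃ N₀ : ℕ, ∀ N : ℕ, N₀ ≤ N →
    (1 / 2 : ℝ) * (N / Real.log N) ≤ (Nat.primeCounting N : ℝ) := by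
  have h1 : Tendsto (fun x : ℝ => Real.log x / x) atTop (𝓝 0) :=
    (Real.isLittleO_log_id_atTop).tendsto_div_nhds_zero
  have h2 : Tendsto (fun N : ℕ => ((N : ℝ) + 1)) atTop atTop :=
    tendsto_atTop_add_const_right _ _ tendsto_natCast_atTop_atTop
  have h3 := (h1.comp h2).eventually (gt_mem_nhds (by norm_num : (0 : ℝ) < 1 / 20))
  obtain ⟨N₀, hN₀⟩ := eventually_atTop.1 (h3.and (eventually_ge_atTop 2))
  refine ⟨N₀, fun N hN => ?_⟩
  obtain ⟨h4, h5⟩ := hN₀ N hN
  simp only [Function.comp] at h4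
  have hN2 : (2 : ℝ) ≤ N := by exact_mod_cast h5
  rw [div_lt_iff₀ (by linarith)] at h4
  have h6 := Chebyshev.pi_ge N
  refine le_trans ?_ h6
  have hlog : 0 < Real.log N := Real.log_pos (by linarith)
  rw [← mul_div_assoc]
  refine div_le_div_of_nonneg_right ?_ hlog.le
  have h7 := Real.log_two_gt_d9
  nlinarith

theorem primesE (K : Type) [Field K] [NumberField K] (a b : 𝓞 K) (hd : Disc (a : K) (b : K))
    (p₀ R C₀ : ℕ) (ε : ℝ) (hε : 0 < ε) :
    ∃ H₀ : ℕ, 3 ≤ H₀ ∧ ∀ H : ℕ, H₀ ≤ H → ∃ (T : Finset ℕ) (L : ℕ), 1 ≤ L ∧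
      (∀ p ∈ T, p₀ ≤ p ∧ ∃ (_ : Fact p.Prime) (φ : 𝓞 K →+* ZMod p), Disc (φ a) (φ b) ∧
        ∀ P : Pt (φ a) (φ b), L • P = 0) ∧
      (C₀ * (H + 1)) ^ C₀ < ∏ p ∈ T, p ∧ (L : ℝ) ^ R ≤ (H : ℝ) ^ ε := by
  classical
  set n : ℕ := Module.finrank ℚ K with hn
  have hn0 : 0 < n := Module.finrank_pos
  -- the choice of `s`
  obtain ⟨s, c, hc0, hcs, hcbig⟩ : ∃ (s : ℕ) (c : ℝ), 0 < c ∧
      c * (2 * n * (1 + s * Real.log 63)) = ((s : ℝ) + 1) ^ 2 ∧
      2304 * (R : ℝ) * (C₀ + 1) ≤ ε * c := by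
    have hl : Real.log 63 ≤ 62 := by
      have := Real.log_le_sub_one_of_pos (show (0 : ℝ) < 63 by norm_num)
      linarith
    have hl0 : 0 ≤ Real.log 63 := Real.log_nonneg (by norm_num)
    obtain ⟨s, hs⟩ := exists_nat_ge (2304 * (R : ℝ) * (C₀ + 1) * (126 * n) / ε)
    have hn' : (0 : ℝ) < n := by exact_mod_cast hn0
    have hden : 0 < 2 * (n : ℝ) * (1 + s * Real.log 63) := by positivity
    refine ⟨s, ((s : ℝ) + 1) ^ 2 / (2 * n * (1 + s * Real.log 63)), by positivity, ?_, ?_⟩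
    · exact div_mul_cancel₀ _ hden.ne'
    · rw [div_le_iff₀ hε] at hs
      have h1 : (s : ℝ) + 1 ≤ 126 * n * (((s : ℝ) + 1) ^ 2 / (2 * n * (1 + s * Real.log 63))) := by
        rw [mul_div_assoc', le_div_iff₀ hden]
        have h2 : 1 + s * Real.log 63 ≤ 63 * ((s : ℝ) + 1) := by nlinarith [s.cast_nonneg (α := ℝ)]
        have h3 : ((s : ℝ) + 1) * (2 * n * (1 + s * Real.log 63)) ≤
            ((s : ℝ) + 1) * (2 * n * (63 * ((s : ℝ) + 1))) := by gcongr
        nlinarith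
      have h126 : (0 : ℝ) < 126 * n := by positivity
      set c := ((s : ℝ) + 1) ^ 2 / (2 * n * (1 + s * Real.log 63)) with hc
      have h4 : 2304 * (R : ℝ) * (C₀ + 1) * (126 * n) ≤ (ε * c) * (126 * n) := by
        calc 2304 * (R : ℝ) * (C₀ + 1) * (126 * n) ≤ s * ε := hs
          _ ≤ ((s : ℝ) + 1) * ε := by nlinarith
          _ ≤ (126 * n * c) * ε := mul_le_mul_of_nonneg_right h1 hε.le
          _ = (ε * c) * (126 * n) := by ring
      exact le_of_mul_le_mul_right h4 h126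
  obtain ⟨j, hj1, N₀, hN₀⟩ := dens_torsion K a b hd s (max p₀ 2)
  obtain ⟨N₁, hN₁⟩ := cheb
  have hj0 : (0 : ℝ) < j := by exact_mod_cast hj1
  set κ : ℝ := c / (2 * j) with hκ
  have hκ0 : 0 < κ := by positivity
  obtain ⟨N₂, hN₂⟩ := Pool.Agent.W52.SA.PRL.main κ hκ0
  set A : ℝ := 32 * j * (C₀ + 1) / c with hA
  have hA0 : 0 < A := by positivity
  -- the choice of `H₀`
  have hlogt : Tendsto (fun H : ℕ => Real.log H) atTop atTop :=
    Real.tendsto_log_atTop.comp tendsto_natCast_atTop_atTop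
  obtain ⟨H₁, hH₁⟩ := eventually_atTop.1 ((hlogt.eventually_ge_atTop
    (max (((N₀ + N₁ + N₂ + 2 : ℕ) : ℝ) / A) (max (1 / A) (R * s * Real.log 6 * 2 / ε)))).and
    (eventually_ge_atTop (2 * C₀ + 3)))
  refine ⟨max 3 H₁, le_max_left _ _, fun H hH => ?_⟩
  obtain ⟨h1, h2⟩ := hH₁ H ((le_max_right _ _).trans hH)
  have hH3 : 3 ≤ H := (le_max_left _ _).trans hH
  have hHr : (3 : ℝ) ≤ H := by exact_mod_cast hH3
  set ℓ : ℝ := Real.log H with hℓ
  have hℓ0 : 0 < ℓ := Real.log_pos (by linarith)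
  have h3 : ((N₀ + N₁ + N₂ + 2 : ℕ) : ℝ) ≤ A * ℓ := by
    have := (le_max_left _ _).trans h1
    rw [div_le_iff₀ hA0] at this
    linarith
  have h4 : 1 ≤ A * ℓ := by
    have := ((le_max_left _ _).trans (le_max_right _ _)).trans h1
    rw [div_le_iff₀ hA0] at this
    linarith
  have h5 : R * s * Real.log 6 * 2 ≤ ε * ℓ := by
    have := ((le_max_right _ _).trans (le_max_right _ _)).trans h1
    rw [div_le_iff₀ hε] at this
    linarith
  set N : ℕ := ⌈A * ℓ⌉₊ with hN
  have hNge : A * ℓ ≤ N := Nat.le_ceil _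
  have hNle : (N : ℝ) < A * ℓ + 1 := Nat.ceil_lt_add_one (by positivity)
  have hNN : N₀ + N₁ + N₂ + 2 ≤ N := by exact_mod_cast h3.trans hNge
  obtain ⟨T, hT1, hT2⟩ := hN₀ N (by omega)
  refine ⟨T, 6 ^ s * Nat.lcmUpto ((2 * N + 1) / j), ?_, ?_, ?_, ?_⟩
  · exact Nat.mul_pos (by positivity) (Nat.lcmUpto_pos _)
  · intro p hp
    obtain ⟨h6, h7, hF, φ, h8, h9⟩ := hT1 p hp
    refine ⟨(le_max_left _ _).trans h7, hF, φ, h8, fun P => ?_⟩
    obtain ⟨h10, h11⟩ := card_pt p (φ a) (φ b)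
    exact kill (6 ^ s) j (2 * N + 1) hj1 (h11.trans (by omega)) h9 P
  · -- the product
    have h6 := hN₁ N (by omega)
    have hNpos : (2 : ℝ) ≤ N := by
      have : 2 ≤ N := by omega
      exact_mod_cast this
    have h7 : κ * (N / Real.log N) ≤ (T.card : ℝ) := by
      have h8 : c * (Nat.primeCounting N : ℝ) ≤ j * T.card := by
        have h9 : (c * (2 * n * (1 + s * Real.log 63))) * (Nat.primeCounting N : ℝ) ≤
            2 * n * (1 + s * Real.log 63) * (j * T.card) := by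
          rw [hcs]
          exact hT2
        have hden : 0 < 2 * (n : ℝ) * (1 + s * Real.log 63) := by
          have : 0 ≤ Real.log 63 := Real.log_nonneg (by norm_num)
          have hn' : (0 : ℝ) < n := by exact_mod_cast hn0
          positivity
        have h10 : (2 * n * (1 + s * Real.log 63)) * (c * (Nat.primeCounting N : ℝ)) ≤
            (2 * n * (1 + s * Real.log 63)) * (j * T.card) := by linarith
        exact le_of_mul_le_mul_left h10 hden
      rw [hκ, div_mul_eq_mul_div, div_le_iff₀ (by positivity)]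
      have h9 := mul_le_mul_of_nonneg_left h6 hc0.le
      linarith
    have h8 := hN₂ N (by omega) T (fun p hp => ⟨(le_max_right _ _).trans (hT1 p hp).2.1,
      (hT1 p hp).1⟩) h7
    have h9 : (2 * (C₀ : ℝ) + 2) * ℓ ≤ κ * N / 8 := by
      have h10 : κ * (A * ℓ) / 8 = (2 * (C₀ : ℝ) + 2) * ℓ := by
        rw [hκ, hA]
        field_simp
        ring
      rw [← h10]
      have := mul_le_mul_of_nonneg_left hNge hκ0.le
      linarith
    have h10 : (H : ℝ) ^ (2 * C₀ + 2) ≤ ∏ p ∈ T, (p : ℝ) := by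
      refine le_trans ?_ ((Real.exp_le_exp.2 h9).trans h8)
      rw [← Real.rpow_natCast, Real.rpow_def_of_pos (by linarith), mul_comm]
      push_cast
      exact le_rfl
    have h11 : (C₀ * (H + 1)) ^ C₀ < H ^ (2 * C₀ + 2) := by
      have h12 : C₀ * (H + 1) ≤ H ^ 2 := by nlinarith
      calc (C₀ * (H + 1)) ^ C₀ ≤ (H ^ 2) ^ C₀ := Nat.pow_le_pow_left h12 _
        _ = H ^ (2 * C₀) := by rw [pow_mul]
        _ < H ^ (2 * C₀ + 2) := Nat.pow_lt_pow_right (by omega) (by omega)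
    have h13 : ((H ^ (2 * C₀ + 2) : ℕ) : ℝ) ≤ ((∏ p ∈ T, p : ℕ) : ℝ) := by
      rw [Nat.cast_prod, Nat.cast_pow]
      exact h10
    have h12 : H ^ (2 * C₀ + 2) ≤ ∏ p ∈ T, p := by exact_mod_cast h13
    exact lt_of_lt_of_le h11 h12
  · -- the size of `L`
    set Y : ℕ := (2 * N + 1) / j with hY
    have hpsi : Real.log (Nat.lcmUpto Y) ≤ 6 * Y := by
      rw [← Chebyshev.psi_eq_log_lcmUpto]
      refine (Chebyshev.psi_le_const_mul_self (Nat.cast_nonneg _)).trans ?_
      have h6 : Real.log 4 ≤ 2 := by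
        have : Real.log 4 = 2 * Real.log 2 := by
          rw [show (4 : ℝ) = 2 ^ 2 by norm_num, Real.log_pow]
          norm_num
        rw [this]
        have := Real.log_two_lt_d9
        linarith
      have h7 : (0 : ℝ) ≤ Y := Nat.cast_nonneg _
      nlinarith
    have hYle : (Y : ℝ) ≤ 5 * (A * ℓ) / j := by
      have h6 : (Y : ℝ) ≤ ((2 * N + 1 : ℕ) : ℝ) / j := Nat.cast_div_le
      refine h6.trans (div_le_div_of_nonneg_right ?_ hj0.le)
      push_cast
      linarith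
    have hAj : A * ℓ / j = 32 * (C₀ + 1) / c * ℓ := by
      rw [hA]
      field_simp
    have hlogL : Real.log ((6 ^ s * Nat.lcmUpto Y : ℕ) : ℝ) ≤
        s * Real.log 6 + 960 * (C₀ + 1) / c * ℓ := by
      push_cast
      have h6 : ((Nat.lcmUpto Y : ℕ) : ℝ) ≠ 0 := by exact_mod_cast Nat.lcmUpto_ne_zero Y
      rw [Real.log_mul (by positivity) h6, Real.log_pow]
      have h7 : 5 * (A * ℓ) / j = 5 * (32 * (C₀ + 1) / c * ℓ) := by
        rw [← hAj]
        ring
      rw [h7] at hYle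
      have h8 : (960 : ℝ) * (C₀ + 1) / c * ℓ = 6 * (5 * (32 * (C₀ + 1) / c * ℓ)) := by ring
      rw [h8]
      linarith
    have hfin : R * Real.log ((6 ^ s * Nat.lcmUpto Y : ℕ) : ℝ) ≤ ε * ℓ := by
      have h6 : (R : ℝ) * (s * Real.log 6 + 960 * (C₀ + 1) / c * ℓ) =
          R * s * Real.log 6 + (960 * (R * (C₀ + 1)) / c) * ℓ := by ring
      have h7 : 960 * ((R : ℝ) * (C₀ + 1)) / c ≤ ε / 2 := by
        rw [div_le_iff₀ hc0]
        nlinarith
      have h8 := mul_le_mul_of_nonneg_right h7 hℓ0.le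
      have h9 := mul_le_mul_of_nonneg_left hlogL (Nat.cast_nonneg R)
      rw [h6] at h9
      linarith
    have hLpos : (0 : ℝ) < ((6 ^ s * Nat.lcmUpto Y : ℕ) : ℝ) := by
      have : 0 < 6 ^ s * Nat.lcmUpto Y := Nat.mul_pos (by positivity) (Nat.lcmUpto_pos _)
      exact_mod_cast this
    rw [← Real.rpow_natCast, Real.rpow_def_of_pos hLpos, Real.rpow_def_of_pos (by linarith)]
    apply Real.exp_le_exp.2
    rw [mul_comm, mul_comm (Real.log (H : ℝ))]
    exact hfin

end Pool.Agent.Y213.EC
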