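import Pool.Agent.H901R3.MS.P_R1K
import Pool.Agent.H901R3.MS.P_R2K
import Pool.Agent.H901R3.MS.P_R3K
import Pool.Agent.H901R3.MS.P_R4K
import Pool.Agent.H901R3.MS.P_R5K
import Pool.Agent.H901R3.MS.P_R6K
import Pool.Agent.H901R3.MS.P_R7K

/-! Reduction maps with prescribed coefficients of the reduced curve; the map of points induced by a
homomorphism of fields. -/

set_option autoImplicit false

namespace Pool.Agent.Y213.EC

open Pool.Agent.H901R3.MS WeierstrassCurve

/-- `red` is the reduction map at the place `v` from the curve with coefficients `a`, `b` to the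
curve with coefficients `a'`, `b'` -/
def IsRd {K k : Type} [Field K] [Field k] (v : Place K k) {a b : K} {a' b' : k}
    (red : Pt a b → Pt a' b') : Prop :=
  red Affine.Point.zero = Affine.Point.zero ∧
  (∀ (x y : K) (h : (CV a b).toAffine.Nonsingular x y), x ∉ v.A →
    red (Affine.Point.some x y h) = Affine.Point.zero) ∧
  (∀ (x y : K) (h : (CV a b).toAffine.Nonsingular x y), x ∈ v.A →
    y ∈ v.A ∧ ∃ g : (CV a' b').toAffine.Nonsingular (v.r x) (v.r y),
      red (Affine.Point.some x y h) = Affine.Point.some _ _ g)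

theorem exists_red {K k : Type} [Field K] [Field k] [DecidableEq K] [DecidableEq k]
    (v : Place K k) {a b : K} {a' b' : k} (ha : a ∈ v.A) (hb : b ∈ v.A) (ha' : v.r a = a')
    (hb' : v.r b = b') (hd : Disc a' b') : ∃ red : Pt a b →+ Pt a' b', IsRd v red := by
  subst ha'
  subst hb'
  exact t_R6K t_R1K t_R2K t_R3K t_R4K t_R5K K k v a b ha hb hd

/-- homogeneous coordinates of the reduction -/
theorem rep_red {K k : Type} [Field K] [Field k] (v : Place K k) {a b : K} {a' b' : k}
    (ha : a ∈ v.A) (hb : b ∈ v.A) (ha' : v.r a = a')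
    (hb' : v.r b = b') {red : Pt a b → Pt a' b'} (hred : IsRd v red) (P : Pt a b) :
    ∃ u : K, u ≠ 0 ∧ ∀ j, u * rep P j ∈ v.A ∧ v.r (u * rep P j) = rep (red P) j := by
  subst ha'
  subst hb'
  exact t_R7K t_R1K K k v a b ha hb red hred P

/-- the trivial place given by a homomorphism -/
noncomputable def tp {K k : Type} [Field K] [Field k] (f : K →+* k) : Place K k where
  A := ⊤
  ρ := f.comp (⊤ : Subring K).subtype
  inv_of_notMem := fun x hx => absurd (Subring.mem_top x) hx
  inv_of_ne := fun x _ => Subring.mem_top _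

theorem tp_mem {K k : Type} [Field K] [Field k] (f : K →+* k) (x : K) : x ∈ (tp f).A :=
  Subring.mem_top x

theorem tp_r {K k : Type} [Field K] [Field k] (f : K →+* k) (x : K) : (tp f).r x = f x := by
  rw [(tp f).r_of (tp_mem f x)]
  rfl

/-- the map of points induced by a homomorphism -/
theorem exists_map {K k : Type} [Field K] [Field k] [DecidableEq K] [DecidableEq k]
    (f : K →+* k) {a b : K} {a' b' : k} (ha' : f a = a') (hb' : f b = b') (hd : Disc a' b') :
    ∃ j : Pt a b →+ Pt a' b', ∀ (x y : K) (h : (CV a b).toAffine.Nonsingular x y),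
      ∃ g : (CV a' b').toAffine.Nonsingular (f x) (f y),
        j (Affine.Point.some x y h) = Affine.Point.some _ _ g := by
  obtain ⟨j, h1, h2, h3⟩ := exists_red (tp f) (a := a) (b := b) (a' := a') (b' := b') (tp_mem f a)
    (tp_mem f b) (by rw [tp_r, ha']) (by rw [tp_r, hb']) hd
  refine ⟨j, fun x y h => ?_⟩
  obtain ⟨_, hg⟩ := h3 x y h (tp_mem f x)
  simp only [tp_r] at hg
  exact hg

theorem map_inj {K k : Type} [Field K] [Field k] [DecidableEq K] [DecidableEq k]
    (f : K →+* k) {a b : K} {a' b' : k} (j : Pt a b →+ Pt a' b')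
    (hj : ∀ (x y : K) (h : (CV a b).toAffine.Nonsingular x y),
      ∃ g : (CV a' b').toAffine.Nonsingular (f x) (f y),
        j (Affine.Point.some x y h) = Affine.Point.some _ _ g) : Function.Injective j := by
  rw [injective_iff_map_eq_zero]
  rintro (_ | ⟨x, y, h⟩) hP
  · rfl
  · obtain ⟨g, hg⟩ := hj x y h
    rw [hg] at hP
    exact absurd hP (by simp)

end Pool.Agent.Y213.EC
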