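import Pool.Agent.Y213.EC.Geo
import Pool.Agent.W578.SA.TRK

/-! Transfer of the hypotheses on the fibres from `ℂ` to fields of large characteristic. -/

set_option autoImplicit false

namespace Pool.Agent.Y213.EC

open MvPolynomial NumberField Pool.Agent.H901R3.MS WeierstrassCurve

/-- the embedding of `𝓞 K` in `ℂ` given by an embedding of `K` -/
noncomputable def toC {K : Type} [Field K] (σ : K →+* ℂ) : 𝓞 K →+* ℂ := σ.comp (algebraMap (𝓞 K) K)

/-! ### the fibres are not the whole space -/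

section TRZ

/-- the generic specialisation with values in a commutative ring -/
noncomputable def gsp {O A : Type} [CommRing O] [CommRing A] (φ : O →+* A) {r n : ℕ}
    (F : Pol O r n) (V : Fin r × Fin 3 → A) : MvPolynomial (Fin n) A :=
  eval₂ (C.comp φ) (Sum.elim (fun ij => C (V ij)) X) F

lemma map_gsp {O A B : Type} [CommRing O] [CommRing A] [CommRing B] (φ : O →+* A) (ψ : A →+* B)
    {r n : ℕ} (F : Pol O r n) (V : Fin r × Fin 3 → A) :
    MvPolynomial.map ψ (gsp φ F V) = gsp (ψ.comp φ) F (fun ij => ψ (V ij)) := by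
  unfold gsp
  induction F using MvPolynomial.induction_on with
  | C a => simp
  | add p q hp hq => rw [eval₂_add, map_add, eval₂_add, hp, hq]
  | mul_X p i hp =>
    rw [eval₂_mul, map_mul, eval₂_mul, hp, eval₂_X, eval₂_X]
    congr 1
    rcases i with ij | k <;> simp

/-- the unknowns -/
abbrev Vars (r : ℕ) : Type := (Fin r × Fin 3) ⊕ (Fin r × Fin 3)

/-- the system of equations -/
noncomputable def eqs {O : Type} [CommRing O] {r n : ℕ} (a b : O) {J : Type}
    (G : J → Pol O r n) : Set (MvPolynomial (Vars r) O) :=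
  {f | (∃ i, f = X (Sum.inl (i, 1)) ^ 2 * X (Sum.inl (i, 2)) -
        (X (Sum.inl (i, 0)) ^ 3 + C a * X (Sum.inl (i, 0)) * X (Sum.inl (i, 2)) ^ 2 +
          C b * X (Sum.inl (i, 2)) ^ 3)) ∨
    (∃ i, f = ∑ j, X (Sum.inl (i, j)) * X (Sum.inr (i, j)) - 1) ∨
    ∃ j, ∃ β, f = coeff β (gsp C (G j) (fun ij => X (Sum.inl ij)))}

lemma sys_iff {O k : Type} [CommRing O] [CommRing k] (φ : O →+* k) {r n : ℕ}
    (a b : O) {J : Type} (G : J → Pol O r n) (x : Vars r → k) :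
    (∀ f ∈ Ideal.span (eqs a b G), eval₂ φ x f = 0) ↔
      (∀ i, x (Sum.inl (i, 1)) ^ 2 * x (Sum.inl (i, 2)) =
        x (Sum.inl (i, 0)) ^ 3 + φ a * x (Sum.inl (i, 0)) * x (Sum.inl (i, 2)) ^ 2 +
          φ b * x (Sum.inl (i, 2)) ^ 3) ∧
      (∀ i, ∑ j, x (Sum.inl (i, j)) * x (Sum.inr (i, j)) = 1) ∧
      ∀ j, gsp φ (G j) (fun ij => x (Sum.inl ij)) = 0 := by
  have key : ∀ j β, eval₂ φ x (coeff β (gsp C (G j) (fun ij => X (Sum.inl ij)))) =
      coeff β (gsp φ (G j) (fun ij => x (Sum.inl ij))) := by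
    intro j β
    have h1 := map_gsp (C : O →+* MvPolynomial (Vars r) O) (eval₂Hom φ x) (G j)
      (fun ij => X (Sum.inl ij))
    have h2 : (eval₂Hom φ x).comp (C : O →+* MvPolynomial (Vars r) O) = φ := by
      ext z
      simp
    rw [h2] at h1
    simp only [coe_eval₂Hom, eval₂_X] at h1
    rw [← h1, coeff_map]
    rfl
  constructor
  · intro h
    refine ⟨fun i => ?_, fun i => ?_, fun j => ?_⟩
    · have h1 := h _ (Ideal.subset_span (Or.inl ⟨i, rfl⟩))
      rw [← coe_eval₂Hom] at h1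
      simp only [map_sub, map_add, map_mul, map_pow, coe_eval₂Hom, eval₂_X, eval₂_C] at h1
      exact sub_eq_zero.1 h1
    · have h1 := h _ (Ideal.subset_span (Or.inr (Or.inl ⟨i, rfl⟩)))
      rw [← coe_eval₂Hom] at h1
      simp only [map_sub, map_sum, map_mul, map_one, coe_eval₂Hom, eval₂_X] at h1
      exact sub_eq_zero.1 h1
    · ext β
      rw [← key j β, coeff_zero]
      exact h _ (Ideal.subset_span (Or.inr (Or.inr ⟨j, β, rfl⟩)))
  · rintro ⟨h1, h2, h4⟩ f hf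
    have hle : Ideal.span (eqs a b G) ≤ RingHom.ker (eval₂Hom φ x) := by
      rw [Ideal.span_le]
      rintro f (⟨i, rfl⟩ | ⟨i, rfl⟩ | ⟨j, β, rfl⟩)
      · rw [SetLike.mem_coe, RingHom.mem_ker]
        simp only [map_sub, map_add, map_mul, map_pow, coe_eval₂Hom, eval₂_X, eval₂_C]
        rw [h1 i, sub_self]
      · rw [SetLike.mem_coe, RingHom.mem_ker]
        simp only [map_sub, map_sum, map_mul, map_one, coe_eval₂Hom, eval₂_X]
        rw [h2 i, sub_self]
      · rw [SetLike.mem_coe, RingHom.mem_ker, coe_eval₂Hom, key j β, h4 j, coeff_zero]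
    exact hle hf

lemma exists_dual {k : Type} [Field k] {n : ℕ} (x : Fin n → k) (hx : x ≠ 0) :
    ∃ y : Fin n → k, ∑ j, x j * y j = 1 := by
  obtain ⟨j, hj⟩ := Function.ne_iff.1 hx
  refine ⟨Pi.single j (x j)⁻¹, ?_⟩
  rw [Finset.sum_eq_single j]
  · rw [Pi.single_eq_same]
    exact mul_inv_cancel₀ hj
  · intro k _ hk
    rw [Pi.single_eq_of_ne hk, mul_zero]
  · intro h
    exact absurd (Finset.mem_univ j) h

theorem trz (K : Type) [Field K] [NumberField K] (r n : ℕ) (a b : 𝓞 K)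
    (J : Type) [Finite J] (G : J → Pol (𝓞 K) r n) (σ : K →+* ℂ)
    (hG : ∀ V : Fin r → Fin 3 → ℂ, (∀ i, OnK (σ a) (σ b) (V i)) →
      ∃ j, spc (toC σ) (G j) V ≠ 0) :
    ∃ p₁ : ℕ, ∀ p : ℕ, p.Prime → p₁ ≤ p → ∀ (k : Type) [Field k] [CharP k p] (φ : 𝓞 K →+* k)
      (V : Fin r → Fin 3 → k), (∀ i, OnK (φ a) (φ b) (V i)) → ∃ j, spc φ (G j) V ≠ 0 := by
  by_contra hcon
  push Not at hcon
  obtain ⟨x, hx⟩ := Pool.Agent.W578.SA.TRK.main K (Vars r) (Ideal.span (eqs a b G)) (by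
    intro N
    obtain ⟨p, hp, hNp, k, hk, hc, φ, V, hV, hz⟩ := hcon N
    refine ⟨p, hp, hNp, k, hk, hc, φ, ?_⟩
    have hW : ∀ i, ∃ W : Fin 3 → k, ∑ j, V i j * W j = 1 := fun i => exists_dual _ (hV i).1
    choose W hW using hW
    refine ⟨Sum.elim (fun ij => V ij.1 ij.2) (fun ij => W ij.1 ij.2), ?_⟩
    rw [sys_iff]
    exact ⟨fun i => (hV i).2, fun i => hW i, fun j => hz j⟩) σ
  have hx' : ∀ f ∈ Ideal.span (eqs a b G), eval₂ (toC σ) x f = 0 := hx
  rw [sys_iff] at hx'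
  obtain ⟨h1, h2, h4⟩ := hx'
  obtain ⟨j, hj⟩ := hG (fun i j => x (Sum.inl (i, j)))
    (fun i => ⟨by
      intro h0
      have h5 := h2 i
      have h6 : ∀ j, x (Sum.inl (i, j)) = 0 := fun j => congrFun h0 j
      simp [h6] at h5, h1 i⟩)
  exact hj (h4 j)

end TRZ

/-! ### the fibres are finite -/

/-- among `D + 1` nonzero common zeros of the `G j (V; x)` two are proportional: the fibre has at
most `D` points in projective space -/
def AtMost {O k : Type} [CommRing O] [Field k] (φ : O →+* k) {r n : ℕ} {J : Type}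
    (G : J → Pol O r n) (V : Fin r → Fin 3 → k) (D : ℕ) : Prop :=
  ∀ x : Fin (D + 1) → Fin n → k, (∀ l, x l ≠ 0) → (∀ l j, vl φ (G j) V (x l) = 0) →
    ∃ l l' : Fin (D + 1), l ≠ l' ∧ ∃ c : k, x l = c • x l'

/-- the variables: `V`, `W`, `x`, `y`, `z` -/
abbrev VarF (r n D : ℕ) : Type :=
  ((Fin r × Fin 3) ⊕ (Fin r × Fin 3)) ⊕
    (((Fin (D + 1) × Fin n) ⊕ (Fin (D + 1) × Fin n)) ⊕
      ((Fin (D + 1) × Fin (D + 1)) × (Fin n × Fin n)))

section

variable {r n D : ℕ}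

def vV (ij : Fin r × Fin 3) : VarF r n D := Sum.inl (Sum.inl ij)
def vW (ij : Fin r × Fin 3) : VarF r n D := Sum.inl (Sum.inr ij)
def vx (l : Fin (D + 1) × Fin n) : VarF r n D := Sum.inr (Sum.inl (Sum.inl l))
def vy (l : Fin (D + 1) × Fin n) : VarF r n D := Sum.inr (Sum.inl (Sum.inr l))
def vz (l : (Fin (D + 1) × Fin (D + 1)) × (Fin n × Fin n)) : VarF r n D := Sum.inr (Sum.inr l)

/-- the embedding of the variables of `G` -/
def emb (l : Fin (D + 1)) : ((Fin r × Fin 3) ⊕ Fin n) → VarF r n D :=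
  Sum.elim vV (fun i => vx (l, i))

end

/-- the equations in terms of the values -/
def SolE {O k : Type} [CommRing O] [Field k] (φ : O →+* k) {r n : ℕ} (a b : O) {J : Type}
    (G : J → Pol O r n) (D : ℕ) (x : VarF r n D → k) : Prop :=
  (∀ i : Fin r, x (vV (i, 1)) ^ 2 * x (vV (i, 2)) - (x (vV (i, 0)) ^ 3 +
      φ a * x (vV (i, 0)) * x (vV (i, 2)) ^ 2 + φ b * x (vV (i, 2)) ^ 3) = 0) ∧
  (∀ i : Fin r, (∑ j : Fin 3, x (vV (i, j)) * x (vW (i, j))) - 1 = 0) ∧
  (∀ l : Fin (D + 1), (∑ i : Fin n, x (vx (l, i)) * x (vy (l, i))) - 1 = 0) ∧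
  (∀ q : {q : Fin (D + 1) × Fin (D + 1) // q.1 ≠ q.2}, (∑ ij : Fin n × Fin n,
      (x (vx (q.1.1, ij.1)) * x (vx (q.1.2, ij.2)) - x (vx (q.1.1, ij.2)) * x (vx (q.1.2, ij.1))) *
        x (vz (q.1, ij))) - 1 = 0) ∧
  (∀ jl : J × Fin (D + 1), eval₂ φ (x ∘ emb jl.2) (G jl.1) = 0)

/-- the equations -/
noncomputable def eqsF {O : Type} [CommRing O] {r n : ℕ} (a b : O) {J : Type}
    (G : J → Pol O r n) (D : ℕ) : Set (MvPolynomial (VarF r n D) O) :=
  (Set.range fun i : Fin r => X (vV (i, 1)) ^ 2 * X (vV (i, 2)) - (X (vV (i, 0)) ^ 3 +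
      C a * X (vV (i, 0)) * X (vV (i, 2)) ^ 2 + C b * X (vV (i, 2)) ^ 3)) ∪
  ((Set.range fun i : Fin r => (∑ j : Fin 3, X (vV (i, j)) * X (vW (i, j))) - 1) ∪
  ((Set.range fun l : Fin (D + 1) => (∑ i : Fin n, X (vx (l, i)) * X (vy (l, i))) - 1) ∪
  ((Set.range fun q : {q : Fin (D + 1) × Fin (D + 1) // q.1 ≠ q.2} => (∑ ij : Fin n × Fin n,
      (X (vx (q.1.1, ij.1)) * X (vx (q.1.2, ij.2)) - X (vx (q.1.1, ij.2)) * X (vx (q.1.2, ij.1))) *
        X (vz (q.1, ij))) - 1) ∪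
  (Set.range fun jl : J × Fin (D + 1) => rename (emb jl.2) (G jl.1)))))

lemma eqsF_iff {O k : Type} [CommRing O] [Field k] (φ : O →+* k) {r n : ℕ} (a b : O)
    {J : Type} (G : J → Pol O r n) (D : ℕ) (x : VarF r n D → k) :
    (∀ f ∈ Ideal.span (eqsF a b G D), eval₂ φ x f = 0) ↔ SolE φ a b G D x := by
  have h1 : (∀ f ∈ Ideal.span (eqsF a b G D), eval₂ φ x f = 0) ↔ ∀ f ∈ eqsF a b G D,
      eval₂Hom φ x f = 0 := by
    constructor
    · intro h f hf
      exact h f (Ideal.subset_span hf)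
    · intro h f hf
      have h2 : Ideal.span (eqsF a b G D) ≤ RingHom.ker (eval₂Hom φ x) :=
        Ideal.span_le.2 fun g hg => h g hg
      exact h2 hf
  have hr : ∀ (l : Fin (D + 1)) (g : Pol O r n),
      eval₂Hom φ x (rename (emb l) g) = eval₂ φ (x ∘ emb l) g := fun l g => by
    rw [coe_eval₂Hom, eval₂_rename]
  have hC : ∀ z : O, eval₂Hom φ x (C z) = φ z := fun z => by simp
  rw [h1]
  unfold eqsF SolE
  simp only [Set.mem_union, or_imp, forall_and, Set.forall_mem_range, map_sub, map_mul, map_pow,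
    map_add, map_sum, map_one, hC, hr, eval₂Hom_X']

theorem trf (K : Type) [Field K] [NumberField K] (r n : ℕ) (a b : 𝓞 K)
    (J : Type) [Finite J] (G : J → Pol (𝓞 K) r n) (σ : K →+* ℂ) (D : ℕ)
    (hG : ∀ V : Fin r → Fin 3 → ℂ, (∀ i, OnK (σ a) (σ b) (V i)) → AtMost (toC σ) G V D) :
    ∃ p₁ : ℕ, ∀ p : ℕ, p.Prime → p₁ ≤ p → ∀ (k : Type) [Field k] [CharP k p] (φ : 𝓞 K →+* k)
      (V : Fin r → Fin 3 → k), (∀ i, OnK (φ a) (φ b) (V i)) → AtMost φ G V D := by
  by_contra hcon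
  push Not at hcon
  obtain ⟨x, hx⟩ := Pool.Agent.W578.SA.TRK.main K (VarF r n D) (Ideal.span (eqsF a b G D)) (by
    intro N
    obtain ⟨p, hp, hNp, k, hk, hc, φ, V, hV, hA⟩ := hcon N
    unfold AtMost at hA
    push Not at hA
    obtain ⟨x, hx0, hxG, hxp⟩ := hA
    refine ⟨p, hp, hNp, k, hk, hc, φ, ?_⟩
    have hW : ∀ i, ∃ W : Fin 3 → k, ∑ j, V i j * W j = 1 := fun i => exists_dual _ (hV i).1
    choose W hW using hW
    have hy : ∀ l, ∃ y : Fin n → k, ∑ j, x l j * y j = 1 := fun l => exists_dual _ (hx0 l)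
    choose y hy using hy
    have hz : ∀ q : Fin (D + 1) × Fin (D + 1), ∃ z : Fin n × Fin n → k, q.1 ≠ q.2 →
        ∑ ij : Fin n × Fin n, (x q.1 ij.1 * x q.2 ij.2 - x q.1 ij.2 * x q.2 ij.1) * z ij = 1 := by
      intro q
      by_cases hq : q.1 = q.2
      · exact ⟨0, fun h => absurd hq h⟩
      · obtain ⟨ij, hij⟩ : ∃ ij : Fin n × Fin n,
            x q.1 ij.1 * x q.2 ij.2 - x q.1 ij.2 * x q.2 ij.1 ≠ 0 := by
          by_contra hno
          push Not at hno
          obtain ⟨j, hj⟩ := Function.ne_iff.1 (hx0 q.2)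
          refine hxp q.1 q.2 hq (x q.1 j / x q.2 j) ?_
          funext i
          have h1 := hno (i, j)
          simp only at h1
          have hj' : x q.2 j ≠ 0 := hj
          rw [Pi.smul_apply, smul_eq_mul]
          field_simp
          linear_combination h1
        refine ⟨Pi.single ij (x q.1 ij.1 * x q.2 ij.2 - x q.1 ij.2 * x q.2 ij.1)⁻¹, fun _ => ?_⟩
        rw [Finset.sum_eq_single ij]
        · rw [Pi.single_eq_same]
          exact mul_inv_cancel₀ hij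
        · intro k _ hk
          rw [Pi.single_eq_of_ne hk, mul_zero]
        · intro h
          exact absurd (Finset.mem_univ ij) h
    choose z hz using hz
    refine ⟨Sum.elim (Sum.elim (fun ij => V ij.1 ij.2) (fun ij => W ij.1 ij.2))
        (Sum.elim (Sum.elim (fun li => x li.1 li.2) (fun li => y li.1 li.2))
          (fun q => z q.1 q.2)), ?_⟩
    rw [eqsF_iff]
    refine ⟨fun i => ?_, fun i => ?_, fun l => ?_, fun q => ?_, fun jl => ?_⟩
    · simp only [vV, Sum.elim_inl]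
      exact sub_eq_zero.2 (hV i).2
    · simp only [vV, vW, Sum.elim_inl, Sum.elim_inr]
      exact sub_eq_zero.2 (hW i)
    · simp only [vx, vy, Sum.elim_inl, Sum.elim_inr]
      exact sub_eq_zero.2 (hy l)
    · simp only [vx, vz, Sum.elim_inl, Sum.elim_inr]
      exact sub_eq_zero.2 (hz q.1 q.2)
    · have h1 := hxG jl.2 jl.1
      unfold vl at h1
      rw [← h1]
      congr 1
      funext w
      rcases w with ij | i <;> rfl) σ
  have hx' : ∀ f ∈ Ideal.span (eqsF a b G D), eval₂ (toC σ) x f = 0 := hx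
  rw [eqsF_iff] at hx'
  obtain ⟨h1, h2, h4, h5, h6⟩ := hx'
  have hV : ∀ i, OnK (σ a) (σ b) ((fun (i : Fin r) (j : Fin 3) => x (vV (i, j))) i) := by
    intro i
    refine ⟨fun h0 => ?_, sub_eq_zero.1 (h1 i)⟩
    have h7 := h2 i
    have h8 : ∀ j, x (vV (i, j)) = 0 := fun j => congrFun h0 j
    simp [h8] at h7
  have hx0 : ∀ l, (fun (l : Fin (D + 1)) (i : Fin n) => x (vx (l, i))) l ≠ 0 := by
    intro l h0
    have h7 := h4 l
    have h8 : ∀ i, x (vx (l, i)) = 0 := fun i => congrFun h0 i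
    simp [h8] at h7
  have hxG : ∀ l j, vl (toC σ) (G j) (fun (i : Fin r) (j : Fin 3) => x (vV (i, j)))
      ((fun (l : Fin (D + 1)) (i : Fin n) => x (vx (l, i))) l) = 0 := by
    intro l j
    have h7 := h6 (j, l)
    unfold vl
    rw [← h7]
    congr 1
    funext w
    rcases w with ij | i <;> rfl
  obtain ⟨l, l', hll, c, hc⟩ := hG _ hV _ hx0 hxG
  have h7 := h5 ⟨(l, l'), hll⟩
  have h8 : ∀ i, x (vx (l, i)) = c * x (vx (l', i)) := fun i => congrFun hc i
  simp only [h8] at h7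
  rw [Finset.sum_eq_zero] at h7
  · norm_num at h7
  · intro ij _
    ring

end Pool.Agent.Y213.EC
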